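import Pool.Agent.Helper78.CA.Defs

set_option autoImplicit false

/-!
`f` is uniformly continuous: `dist x x' < γ` implies `dist (f x) (f x') < δ`. Take `g` from
`ArcLike` for `γ`: `g x = g x'` implies `dist x x' ≤ diam (g ⁻¹' {g x}) < γ` (the set is bounded, `X` compact).
By compactness of `{(x, x') | γ ≤ dist x x'}` there is `κ > 0` with `|g x - g x'| ≤ κ → dist x x' < γ`.
Put `ψ = (3 / κ) g`. (If `X` is empty everything is trivial.)
-/

namespace CArc

open Set Topology

theorem exists_scale {X Y : Type} [MetricSpace X] [CompactSpace X] [MetricSpace Y]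
    (hX : ArcLike X) {f : X → Y} (hf : Continuous f) {δ : ℝ} (hδ : 0 < δ) :
    ∃ ψ : X → ℝ, Continuous ψ ∧ ∀ x x' : X, |ψ x - ψ x'| ≤ 3 → dist (f x) (f x') < δ := by
  obtain ⟨γ, hγ, hfγ⟩ := Metric.uniformContinuous_iff.1
    (CompactSpace.uniformContinuous_of_continuous hf) δ hδ
  obtain ⟨g, hg, -, hgd⟩ := hX γ hγ
  have hK : IsCompact {q : X × X | γ ≤ dist q.1 q.2} :=
    (isClosed_le continuous_const (continuous_fst.dist continuous_snd)).isCompact
  have hc : Continuous (fun q : X × X => |g q.1 - g q.2|) :=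
    ((hg.comp continuous_fst).sub (hg.comp continuous_snd)).abs
  obtain ⟨κ, hκ, hle⟩ := hK.exists_forall_le' (a := 0) hc.continuousOn (by
    rintro ⟨x, x'⟩ hx
    change γ ≤ dist x x' at hx
    change 0 < |g x - g x'|
    rw [abs_pos, sub_ne_zero]
    intro h
    have h1 : dist x x' ≤ Metric.diam (g ⁻¹' {g x}) := by
      refine Metric.dist_le_diam_of_mem ?_ rfl h.symm
      exact Metric.isBounded_of_compactSpace
    have h2 := hgd (g x)
    linarith)
  refine ⟨fun x => (6 / κ) * g x, continuous_const.mul hg, fun x x' h => ?_⟩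
  apply hfγ
  by_contra hcon
  rw [not_lt] at hcon
  have h1 := hle (x, x') hcon
  change κ ≤ |g x - g x'| at h1
  rw [← mul_sub, abs_mul, abs_of_pos (by positivity)] at h
  have h2 : (6 / κ) * κ ≤ (6 / κ) * |g x - g x'| := by gcongr
  rw [div_mul_cancel₀ _ hκ.ne'] at h2
  linarith

end CArc
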