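import Pool.Agent.Helper78.CA.Defs

set_option autoImplicit false

/-!
Separation. In the compact Hausdorff space `Z` the component of a point is the intersection
of the clopen sets containing it (`connectedComponent_eq_iInter_isClopen`). The component of
`p ∈ P` is a continuum inside `Z` which meets `P`, so it misses `Q`; by compactness of `Q` some
clopen set of `Z` contains `p` and misses `Q`. Finitely many of these clopen sets cover `P`.
-/

namespace CArc

open Set Topology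

/-- For every point of `P` a clopen set of the subspace `Z` contains it and misses `Q`. -/
theorem sep_aux1 {Y : Type} [MetricSpace Y] [CompactSpace Y] {Z P Q : Set Y} (hZ : IsClosed Z)
    (hQ : IsClosed Q)
    (h : ∀ H : Set Y, Cont H → H ⊆ Z → (H ∩ P).Nonempty → (H ∩ Q).Nonempty → False)
    (p : Z) (hp : (p : Y) ∈ P) :
    ∃ W : Set Z, IsClopen W ∧ p ∈ W ∧ ∀ z ∈ W, (z : Y) ∉ Q := by
  have : CompactSpace Z := isCompact_iff_compactSpace.mp hZ.isCompact
  have hcc : IsConnected (connectedComponent p) := isConnected_connectedComponent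
  have hCc : IsCompact (connectedComponent p) := isClosed_connectedComponent.isCompact
  have hmiss : ∀ z ∈ connectedComponent p, (z : Y) ∉ Q := by
    intro z hz hzQ
    refine h ((fun z : Z => (z : Y)) '' connectedComponent p)
      ⟨hCc.image continuous_subtype_val, hcc.image _ continuous_subtype_val.continuousOn⟩ ?_ ?_ ?_
    · rintro _ ⟨w, -, rfl⟩
      exact w.2
    · exact ⟨p, ⟨p, mem_connectedComponent, rfl⟩, hp⟩
    · exact ⟨z, ⟨z, hz, rfl⟩, hzQ⟩
  set Q' : Set Z := (fun z : Z => (z : Y)) ⁻¹' Q with hQ'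
  have hQ'c : IsCompact Q' := (hQ.preimage continuous_subtype_val).isCompact
  have hinter : (⋂ s : { s : Set Z // IsClopen s ∧ p ∈ s }, (s : Set Z)) ∩ Q' = ∅ := by
    rw [← connectedComponent_eq_iInter_isClopen]
    ext z
    simp only [mem_inter_iff, mem_empty_iff_false, iff_false, not_and]
    intro hz hzQ
    exact hmiss z hz hzQ
  have : Nonempty { s : Set Z // IsClopen s ∧ p ∈ s } := ⟨⟨univ, isClopen_univ, mem_univ _⟩⟩
  obtain ⟨s, hs⟩ := hQ'c.elim_directed_family_closed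
    (fun s : { s : Set Z // IsClopen s ∧ p ∈ s } => (s : Set Z))
    (fun s => s.2.1.1) (by rw [inter_comm]; exact hinter)
    (by
      intro a b
      exact ⟨⟨a.1 ∩ b.1, a.2.1.inter b.2.1, a.2.2, b.2.2⟩, inter_subset_left, inter_subset_right⟩)
  refine ⟨s.1, s.2.1, s.2.2, ?_⟩
  intro z hz hzQ
  have : z ∈ Q' ∩ s.1 := ⟨hzQ, hz⟩
  rw [hs] at this
  exact this

/-- If no continuum in the compact set `Z` meets both `P` and `Q`, then `Z` splits. -/
theorem sep {Y : Type} [MetricSpace Y] [CompactSpace Y] {Z P Q : Set Y} (hZ : IsClosed Z)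
    (hP : IsClosed P) (hQ : IsClosed Q) (hPZ : P ⊆ Z) (hQZ : Q ⊆ Z)
    (h : ∀ H : Set Y, Cont H → H ⊆ Z → (H ∩ P).Nonempty → (H ∩ Q).Nonempty → False) :
    ∃ Z₁ Z₂ : Set Y, IsClosed Z₁ ∧ IsClosed Z₂ ∧ Z₁ ∪ Z₂ = Z ∧ Disjoint Z₁ Z₂ ∧
      P ⊆ Z₁ ∧ Q ⊆ Z₂ := by
  have : CompactSpace Z := isCompact_iff_compactSpace.mp hZ.isCompact
  set P' : Set Z := (fun z : Z => (z : Y)) ⁻¹' P with hP'
  have hP'c : IsCompact P' := (hP.preimage continuous_subtype_val).isCompact
  have key : ∃ W : Set Z, IsClopen W ∧ P' ⊆ W ∧ ∀ z ∈ W, (z : Y) ∉ Q := by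
    refine hP'c.induction_on (p := fun S => ∃ W : Set Z, IsClopen W ∧ S ⊆ W ∧ ∀ z ∈ W, (z : Y) ∉ Q)
      ⟨∅, isClopen_empty, empty_subset _, fun z hz => absurd hz (by simp)⟩ ?_ ?_ ?_
    · rintro s t hst ⟨W, hW, htW, hWQ⟩
      exact ⟨W, hW, hst.trans htW, hWQ⟩
    · rintro s t ⟨W, hW, hsW, hWQ⟩ ⟨W', hW', htW', hWQ'⟩
      exact ⟨W ∪ W', hW.union hW', union_subset_union hsW htW', fun z hz => by
        rcases hz with hz | hz
        · exact hWQ z hz
        · exact hWQ' z hz⟩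
    · intro p hp
      obtain ⟨W, hW, hpW, hWQ⟩ := sep_aux1 hZ hQ h p hp
      exact ⟨W, mem_nhdsWithin_of_mem_nhds (hW.2.mem_nhds hpW), W, hW, Subset.rfl, hWQ⟩
  obtain ⟨W, hW, hPW, hWQ⟩ := key
  refine ⟨(fun z : Z => (z : Y)) '' W, (fun z : Z => (z : Y)) '' Wᶜ, ?_, ?_, ?_, ?_, ?_, ?_⟩
  · exact (hW.1.isCompact.image continuous_subtype_val).isClosed
  · exact (hW.compl.1.isCompact.image continuous_subtype_val).isClosed
  · rw [← image_union, union_compl_self, image_univ]
    exact Subtype.range_coe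
  · rw [disjoint_left]
    rintro _ ⟨a, ha, rfl⟩ ⟨b, hb, hab⟩
    have : b = a := Subtype.ext hab
    subst this
    exact hb ha
  · intro y hy
    exact ⟨⟨y, hPZ hy⟩, hPW hy, rfl⟩
  · intro y hy
    exact ⟨⟨y, hQZ hy⟩, fun hyW => hWQ _ hyW hy, rfl⟩

end CArc
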