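import Pool.Agent.Helper78.CA.Scale

set_option autoImplicit false

/-!
Unicoherence. Suppose `A ∩ B` is not connected: `A ∩ B = P ∪ Q`, `P, Q` closed, nonempty, disjoint
(`isPreconnected_closed_iff` or similar). Let `S = {b ∈ B | infDist b P = infDist b Q}`, closed and disjoint from
`A` (a point of `A ∩ B = P ∪ Q` has exactly one of the two distances `0`). Choose `δ > 0` with
`δ ≤ dist a b` for all `a ∈ A`, `b ∈ S` and `2 δ ≤ dist p q` for `p ∈ P`, `q ∈ Q`; `ψ` from `exists_scale` for `δ`.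
`A ∪ B` is a continuum; let `x₁` be a point with `f x₁ ∈ A ∪ B`, `C = connectedComponentIn (f ⁻¹' (A ∪ B)) x₁`, compact,
`f '' C = A ∪ B`. Let `p*` maximize `ψ` on `C ∩ f ⁻¹' P` and `q*` on `C ∩ f ⁻¹' Q` (compact, nonempty). By symmetry
(prove a lemma first, under the hypothesis `ψ q* ≤ ψ p*`) let `ψ q* ≤ ψ p*`; then `ψ q* < ψ p*` because equality would give
`dist (f q*) (f p*) < δ`. Let `CA = connectedComponentIn (f ⁻¹' A) p*`, `CB = connectedComponentIn (f ⁻¹' B) p*`;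
both are connected, contained in `f ⁻¹' (A ∪ B)` and contain `p* ∈ C`, so they are subsets of `C`; by confluence
`f '' CA = A`, `f '' CB = B`, so `CA` contains a point `qA` with `f qA ∈ Q`, whence `ψ qA ≤ ψ q*`, and similarly `qB ∈ CB`. So
`ψ '' CA` and `ψ '' CB` contain `J = [ψ q*, ψ p*]`.
Claim: there is `b* ∈ CB` with `ψ b* ∈ J` and `f b* ∈ S`. If not, `CB` is the union of the two closed sets
`F₁ = {z ∈ CB | ψ z ≤ ψ q*} ∪ {z ∈ CB | ψ z ∈ J, infDist (f z) Q ≤ infDist (f z) P}` (contains `qB`) and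
`F₂ = {z ∈ CB | ψ p* ≤ ψ z} ∪ {z ∈ CB | ψ z ∈ J, infDist (f z) P ≤ infDist (f z) Q}` (contains `p*`). They are disjoint:
a point with `ψ z = ψ q*` has `dist (f z) (f q*) < δ`, so `infDist (f z) Q < δ < infDist (f z) P` (strictly, by `2 δ ≤ dist`), and a point with
`ψ z = ψ p*` has `infDist (f z) P < infDist (f z) Q`; equality of the two distances is excluded by assumption. This contradicts
the connectedness of `CB`.
Finally take `a* ∈ CA` with `ψ a* = ψ b*`: `dist (f a*) (f b*) < δ`, `f a* ∈ A`, `f b* ∈ S`: contradiction.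
-/

namespace CArc

open Set Topology

theorem uni_aux_dist {Y : Type} [MetricSpace Y] {P Q : Set Y} {δ : ℝ} (hPne : P.Nonempty)
    (hPQ : ∀ p ∈ P, ∀ q ∈ Q, 2 * δ ≤ dist p q) {z q : Y} (hq : q ∈ Q) (hz : dist z q < δ) :
    Metric.infDist z Q < Metric.infDist z P := by
  have h1 : Metric.infDist z Q < δ := lt_of_le_of_lt (Metric.infDist_le_dist_of_mem hq) hz
  have h2 : δ ≤ Metric.infDist z P := by
    refine (Metric.le_infDist hPne).2 ?_
    intro p hp
    have h3 := hPQ p hp q hq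
    have h4 : dist p q ≤ dist p z + dist z q := dist_triangle p z q
    rw [dist_comm p z] at h4
    linarith
  linarith

theorem uni_aux {X Y : Type} [MetricSpace X] [MetricSpace Y]
    {f : X → Y} (hf : Continuous f) {A B P Q : Set Y} {CA CB : Set X} {δ : ℝ}
    (hPne : P.Nonempty) (hQne : Q.Nonempty)
    (hPQ : ∀ p ∈ P, ∀ q ∈ Q, 2 * δ ≤ dist p q) (hδ : 0 < δ)
    (hS : ∀ a ∈ A, ∀ b ∈ B, Metric.infDist b P = Metric.infDist b Q → δ ≤ dist a b)
    {ψ : X → ℝ} (hψ : Continuous ψ)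
    (hψf : ∀ x x' : X, |ψ x - ψ x'| ≤ 3 → dist (f x) (f x') < δ)
    (hCA : IsPreconnected CA) (hCB : IsPreconnected CB)
    (hfA : ∀ z ∈ CA, f z ∈ A) (hfB : ∀ z ∈ CB, f z ∈ B)
    {p q qA qB : X} (hp : f p ∈ P) (hq : f q ∈ Q)
    (hpA : p ∈ CA) (hpB : p ∈ CB)
    (hqA : qA ∈ CA) (hqB : qB ∈ CB)
    (hqA' : ψ qA ≤ ψ q) (hqB' : ψ qB ≤ ψ q) (hle : ψ q ≤ ψ p) : False := by
  have heq : ∀ x x' : X, ψ x = ψ x' → dist (f x) (f x') < δ := by
    intro x x' h
    apply hψf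
    rw [h, sub_self, abs_zero]
    norm_num
  have hPQ' : ∀ q ∈ Q, ∀ p ∈ P, 2 * δ ≤ dist q p := by
    intro q hq p hp
    rw [dist_comm]
    exact hPQ p hp q hq
  set F₁ : Set X := {z | ψ z ≤ ψ q} ∪
    {z | (ψ q ≤ ψ z ∧ ψ z ≤ ψ p) ∧ Metric.infDist (f z) Q ≤ Metric.infDist (f z) P} with hF₁
  set F₂ : Set X := {z | ψ p ≤ ψ z} ∪
    {z | (ψ q ≤ ψ z ∧ ψ z ≤ ψ p) ∧ Metric.infDist (f z) P ≤ Metric.infDist (f z) Q} with hF₂
  have hcP : Continuous fun z => Metric.infDist (f z) P :=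
    (Metric.continuous_infDist_pt P).comp hf
  have hcQ : Continuous fun z => Metric.infDist (f z) Q :=
    (Metric.continuous_infDist_pt Q).comp hf
  have hJ : IsClosed {z | ψ q ≤ ψ z ∧ ψ z ≤ ψ p} :=
    (isClosed_le continuous_const hψ).inter (isClosed_le hψ continuous_const)
  have hc₁ : IsClosed F₁ :=
    (isClosed_le hψ continuous_const).union (hJ.inter (isClosed_le hcQ hcP))
  have hc₂ : IsClosed F₂ :=
    (isClosed_le continuous_const hψ).union (hJ.inter (isClosed_le hcP hcQ))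
  have hcov : CB ⊆ F₁ ∪ F₂ := by
    intro z _
    by_cases h1 : ψ z ≤ ψ q
    · exact Or.inl (Or.inl h1)
    · by_cases h2 : ψ p ≤ ψ z
      · exact Or.inr (Or.inl h2)
      · push Not at h1 h2
        rcases le_total (Metric.infDist (f z) Q) (Metric.infDist (f z) P) with h3 | h3
        · exact Or.inl (Or.inr ⟨⟨h1.le, h2.le⟩, h3⟩)
        · exact Or.inr (Or.inr ⟨⟨h1.le, h2.le⟩, h3⟩)
  obtain ⟨z, hzB, hz₁, hz₂⟩ := (isPreconnected_closed_iff.1 hCB) F₁ F₂ hc₁ hc₂ hcov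
    ⟨qB, hqB, Or.inl hqB'⟩ ⟨p, hpB, Or.inl (le_refl (ψ p))⟩
  rcases hz₁ with hz₁ | ⟨⟨hz₁, hz₁'⟩, hz₁''⟩
  · have hz₁ : ψ z ≤ ψ q := hz₁
    rcases hz₂ with hz₂ | ⟨⟨hz₂, hz₂'⟩, hz₂''⟩
    · have hz₂ : ψ p ≤ ψ z := hz₂
      have h1 : ψ p = ψ q := le_antisymm (hz₂.trans hz₁) hle
      have h2 := heq p q h1
      have h3 := hPQ _ hp _ hq
      linarith
    · have h1 : ψ z = ψ q := le_antisymm hz₁ hz₂
      have h2 := uni_aux_dist hPne hPQ hq (heq z q h1)
      linarith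
  · rcases hz₂ with hz₂ | ⟨⟨hz₂, hz₂'⟩, hz₂''⟩
    · have hz₂ : ψ p ≤ ψ z := hz₂
      have h1 : ψ z = ψ p := le_antisymm hz₁' hz₂
      have h2 := uni_aux_dist hQne hPQ' hp (heq z p h1)
      linarith
    · have h1 : Metric.infDist (f z) P = Metric.infDist (f z) Q := le_antisymm hz₂'' hz₁''
      have h2 : ψ z ∈ ψ '' CA := by
        have h3 : (ψ '' CA).OrdConnected := (hCA.image ψ hψ.continuousOn).ordConnected
        exact h3.out ⟨qA, hqA, rfl⟩ ⟨p, hpA, rfl⟩ ⟨hqA'.trans hz₂, hz₂'⟩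
      obtain ⟨a, haA, ha⟩ := h2
      have h4 := heq a z ha
      have h5 := hS (f a) (hfA a haA) (f z) (hfB z hzB) h1
      linarith

theorem uni_aux_pos {Y : Type} [MetricSpace Y] {s t : Set Y} (hs : IsCompact s)
    (ht : IsClosed t) (hst : Disjoint s t) : ∃ r : ℝ, 0 < r ∧ ∀ x ∈ s, ∀ y ∈ t, r ≤ dist x y := by
  obtain ⟨r, hr, h⟩ := Metric.exists_pos_forall_lt_edist hs ht hst
  refine ⟨r, hr, ?_⟩
  intro x hx y hy
  have h1 := h x hx y hy
  rw [edist_dist, ← ENNReal.ofReal_coe_nnreal] at h1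
  have h2 := (ENNReal.ofReal_lt_ofReal_iff_of_nonneg r.coe_nonneg).1 h1
  exact h2.le

theorem inter_connected {X Y : Type} [MetricSpace X] [CompactSpace X] [MetricSpace Y]
    [CompactSpace Y] (hX : ArcLike X) {f : X → Y} (hf : Continuous f)
    (hsurj : Function.Surjective f) (hconf : Confl f) {A B : Set Y} (hA : Cont A) (hB : Cont B)
    (hAB : (A ∩ B).Nonempty) : Cont (A ∩ B) := by
  refine ⟨hA.1.inter_right hB.1.isClosed, hAB, ?_⟩
  rw [isPreconnected_closed_iff]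
  intro t t' ht ht' hcov hne hne'
  by_contra hcon
  have hAc : IsClosed A := hA.1.isClosed
  have hBc : IsClosed B := hB.1.isClosed
  set P : Set Y := A ∩ B ∩ t with hPdef
  set Q : Set Y := A ∩ B ∩ t' with hQdef
  have hPc : IsClosed P := (hAc.inter hBc).inter ht
  have hQc : IsClosed Q := (hAc.inter hBc).inter ht'
  have hPQd : Disjoint P Q := by
    rw [Set.disjoint_left]
    intro y hy hy'
    exact hcon ⟨y, hy.1, hy.2, hy'.2⟩
  obtain ⟨r₁, hr₁, hr₁'⟩ := uni_aux_pos hPc.isCompact hQc hPQd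
  set S : Set Y := {b | b ∈ B ∧ Metric.infDist b P = Metric.infDist b Q} with hSdef
  have hSc : IsClosed S :=
    hBc.inter (isClosed_eq (Metric.continuous_infDist_pt P) (Metric.continuous_infDist_pt Q))
  have hAS : Disjoint A S := by
    rw [Set.disjoint_left]
    intro y hy hy'
    have hyAB : y ∈ A ∩ B := ⟨hy, hy'.1⟩
    rcases hcov hyAB with h | h
    · have hyP : y ∈ P := ⟨hyAB, h⟩
      have h1 : Metric.infDist y P = 0 := Metric.infDist_zero_of_mem hyP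
      have h2 : Metric.infDist y Q = 0 := by rw [← hy'.2, h1]
      have h3 : y ∈ Q := (hQc.mem_iff_infDist_zero hne').2 h2
      exact (Set.disjoint_left.1 hPQd) hyP h3
    · have hyQ : y ∈ Q := ⟨hyAB, h⟩
      have h1 : Metric.infDist y Q = 0 := Metric.infDist_zero_of_mem hyQ
      have h2 : Metric.infDist y P = 0 := by rw [hy'.2, h1]
      have h3 : y ∈ P := (hPc.mem_iff_infDist_zero hne).2 h2
      exact (Set.disjoint_left.1 hPQd) h3 hyQ
  obtain ⟨r₂, hr₂, hr₂'⟩ := uni_aux_pos hA.1 hSc hAS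
  set δ : ℝ := min (r₁ / 2) r₂ with hδdef
  have hδ : 0 < δ := lt_min (by linarith) hr₂
  have hδ₁ : 2 * δ ≤ r₁ := by
    have := min_le_left (r₁ / 2) r₂
    linarith
  have hδ₂ : δ ≤ r₂ := min_le_right _ _
  have hPQ : ∀ p ∈ P, ∀ q ∈ Q, 2 * δ ≤ dist p q := fun p hp q hq =>
    hδ₁.trans (hr₁' p hp q hq)
  have hQP : ∀ q ∈ Q, ∀ p ∈ P, 2 * δ ≤ dist q p := by
    intro q hq p hp
    rw [dist_comm]
    exact hPQ p hp q hq
  obtain ⟨ψ, hψ, hψf⟩ := exists_scale hX hf hδ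
  obtain ⟨a₀, ha₀⟩ := hA.2.nonempty
  obtain ⟨x₁, hx₁⟩ := hsurj a₀
  have hABc : Cont (A ∪ B) := ⟨hA.1.union hB.1, hA.2.union hAB hB.2⟩
  have hx₁m : x₁ ∈ f ⁻¹' (A ∪ B) := by
    change f x₁ ∈ A ∪ B
    rw [hx₁]
    exact Or.inl ha₀
  set C : Set X := connectedComponentIn (f ⁻¹' (A ∪ B)) x₁ with hCdef
  have hfC : f '' C = A ∪ B := hconf (A ∪ B) hABc.1 hABc.2 x₁ hx₁m
  have hCsub : C ⊆ f ⁻¹' (A ∪ B) := connectedComponentIn_subset _ _
  have hCpre : IsPreconnected C := isPreconnected_connectedComponentIn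
  have hx₁C : x₁ ∈ C := mem_connectedComponentIn hx₁m
  have hCc : IsClosed C := by
    have h1 : closure C ⊆ f ⁻¹' (A ∪ B) :=
      closure_minimal hCsub ((hAc.union hBc).preimage hf)
    have h2 : closure C ⊆ C :=
      hCpre.closure.subset_connectedComponentIn (subset_closure hx₁C) h1
    exact isClosed_of_closure_subset h2
  have hmax : ∀ R : Set Y, IsClosed R → R.Nonempty → R ⊆ A ∪ B →
      ∃ p ∈ C, f p ∈ R ∧ ∀ z ∈ C, f z ∈ R → ψ z ≤ ψ p := by
    intro R hR hRne hRsub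
    have h1 : IsCompact (C ∩ f ⁻¹' R) := (hCc.inter (hR.preimage hf)).isCompact
    have h2 : (C ∩ f ⁻¹' R).Nonempty := by
      obtain ⟨y, hy⟩ := hRne
      have h3 : y ∈ f '' C := by
        rw [hfC]
        exact hRsub hy
      obtain ⟨z, hz, hzy⟩ := h3
      refine ⟨z, hz, ?_⟩
      change f z ∈ R
      rw [hzy]
      exact hy
    obtain ⟨p, hp, hpm⟩ := h1.exists_isMaxOn h2 hψ.continuousOn
    exact ⟨p, hp.1, hp.2, fun z hz hzR => hpm ⟨hz, hzR⟩⟩
  have hPsub : P ⊆ A ∪ B := fun y hy => Or.inl hy.1.1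
  have hQsub : Q ⊆ A ∪ B := fun y hy => Or.inl hy.1.1
  obtain ⟨p, hpC, hpP, hpmax⟩ := hmax P hPc hne hPsub
  obtain ⟨q, hqC, hqQ, hqmax⟩ := hmax Q hQc hne' hQsub
  -- the components over `A` and over `B` of a point of `C` over `A ∩ B`
  have hcomp : ∀ K : Set Y, Cont K → K ⊆ A ∪ B → ∀ z ∈ C, f z ∈ K →
      ∃ D : Set X, IsPreconnected D ∧ z ∈ D ∧ D ⊆ C ∧ (∀ w ∈ D, f w ∈ K) ∧
        ∀ y ∈ K, ∃ w ∈ D, f w = y := by
    intro K hK hKsub z hzC hzK
    refine ⟨connectedComponentIn (f ⁻¹' K) z, isPreconnected_connectedComponentIn,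
      mem_connectedComponentIn hzK, ?_, ?_, ?_⟩
    · have h1 : connectedComponentIn (f ⁻¹' (A ∪ B)) x₁
          = connectedComponentIn (f ⁻¹' (A ∪ B)) z := connectedComponentIn_eq hzC
      rw [hCdef, h1]
      refine isPreconnected_connectedComponentIn.subset_connectedComponentIn
        (mem_connectedComponentIn hzK) ?_
      exact (connectedComponentIn_subset _ _).trans (Set.preimage_mono hKsub)
    · intro w hw
      have h1 : w ∈ f ⁻¹' K := connectedComponentIn_subset _ _ hw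
      exact h1
    · intro y hy
      have h1 := hconf K hK.1 hK.2 z hzK
      rw [← h1] at hy
      exact hy
  rcases le_total (ψ q) (ψ p) with hle | hle
  · obtain ⟨CA, hCA, hpCA, hCAs, hCAf, hCAonto⟩ :=
      hcomp A hA Set.subset_union_left p hpC hpP.1.1
    obtain ⟨CB, hCB, hpCB, hCBs, hCBf, hCBonto⟩ :=
      hcomp B hB Set.subset_union_right p hpC hpP.1.2
    obtain ⟨qA, hqA, hqA'⟩ := hCAonto (f q) hqQ.1.1
    obtain ⟨qB, hqB, hqB'⟩ := hCBonto (f q) hqQ.1.2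
    refine uni_aux hf hne hne' hPQ hδ ?_ hψ hψf hCA hCB hCAf hCBf hpP hqQ hpCA hpCB hqA hqB
      ?_ ?_ hle
    · intro a ha b hb hab
      exact hδ₂.trans (hr₂' a ha b ⟨hb, hab⟩)
    · apply hqmax qA (hCAs hqA)
      rw [hqA']
      exact hqQ
    · apply hqmax qB (hCBs hqB)
      rw [hqB']
      exact hqQ
  · obtain ⟨CA, hCA, hpCA, hCAs, hCAf, hCAonto⟩ :=
      hcomp A hA Set.subset_union_left q hqC hqQ.1.1
    obtain ⟨CB, hCB, hpCB, hCBs, hCBf, hCBonto⟩ :=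
      hcomp B hB Set.subset_union_right q hqC hqQ.1.2
    obtain ⟨qA, hqA, hqA'⟩ := hCAonto (f p) hpP.1.1
    obtain ⟨qB, hqB, hqB'⟩ := hCBonto (f p) hpP.1.2
    refine uni_aux hf hne' hne hQP hδ ?_ hψ hψf hCA hCB hCAf hCBf hqQ hpP hpCA hpCB hqA hqB
      ?_ ?_ hle
    · intro a ha b hb hab
      exact hδ₂.trans (hr₂' a ha b ⟨hb, hab.symm⟩)
    · apply hpmax qA (hCAs hqA)
      rw [hqA']
      exact hpP
    · apply hpmax qB (hCBs hqB)
      rw [hqB']
      exact hpP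

end CArc
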