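import Pool.Agent.Helper78.CA.Triod
import Pool.Agent.Helper78.CA.Uni

set_option autoImplicit false

/-!
Let `H ⊆ A ∪ B` meet `A \ B` (at `t₁`) and `B \ A` (at `t₂`), and suppose `t₃ ∈ A ∩ B`, `t₃ ∉ H`. `H` is connected and
covered by the closed sets `H ∩ A`, `H ∩ B`, both nonempty, so there is `p ∈ H ∩ A ∩ B`. By `inter_connected` the sets
`T₁ = H ∩ A`, `T₂ = H ∩ B`, `T₃ = A ∩ B` are continua, with the common point `p`, and `t₁, t₂, t₃` violate `no_triod`.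
-/

namespace CArc

open Set Topology

theorem hh_of_arclike {X Y : Type} [MetricSpace X] [CompactSpace X] [MetricSpace Y]
    [CompactSpace Y] (hX : ArcLike X) {f : X → Y} (hf : Continuous f)
    (hsurj : Function.Surjective f) (hconf : Confl f) : HH Y := by
  rintro A B H hA hB hH hsub ⟨t₁, ht₁H, ht₁A, ht₁B⟩ ⟨t₂, ht₂H, ht₂B, ht₂A⟩ t₃ ⟨ht₃A, ht₃B⟩
  by_contra ht₃
  obtain ⟨p, hpH, hpA, hpB⟩ := isPreconnected_closed_iff.1 hH.2.isPreconnected A B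
    hA.1.isClosed hB.1.isClosed hsub ⟨t₁, ht₁H, ht₁A⟩ ⟨t₂, ht₂H, ht₂B⟩
  have h1 : Cont (H ∩ A) := inter_connected hX hf hsurj hconf hH hA ⟨p, hpH, hpA⟩
  have h2 : Cont (H ∩ B) := inter_connected hX hf hsurj hconf hH hB ⟨p, hpH, hpB⟩
  have h3 : Cont (A ∩ B) := inter_connected hX hf hsurj hconf hA hB ⟨p, hpA, hpB⟩
  exact no_triod hX hf hsurj hconf h1 h2 h3 (p := p) (t₁ := t₁) (t₂ := t₂) (t₃ := t₃)
    ⟨hpH, hpA⟩ ⟨hpH, hpB⟩ ⟨hpA, hpB⟩ ⟨ht₁H, ht₁A⟩ ⟨ht₂H, ht₂B⟩ ⟨ht₃A, ht₃B⟩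
    (fun h => ht₁B h.2) (fun h => ht₁B h.2) (fun h => ht₂A h.2) (fun h => ht₂A h.1)
    (fun h => ht₃ h.1) (fun h => ht₃ h.1)

end CArc
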