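import Pool.Agent.Helper78.CA.Defs

set_option autoImplicit false

/-!
Chains of continua (all sets of the chain are closed in a compact space; a chain is directed downwards).
`chain_subset_open`: compactness (`IsCompact.elim_directed_family_closed_of_isCompact` or
`exists_subset_nhds_of_isCompact` and similar).
`cont_sInter`: nonempty: `IsCompact.nonempty_sInter_of_directed_nonempty_isCompact_isClosed` (or similar); preconnected: if
`⋂₀ 𝒞` is covered by two disjoint closed sets `F, G` meeting it, separate them by disjoint open sets `U, V` (normal space); some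
`A ∈ 𝒞` is contained in `U ∪ V`, and connectedness of `A` is contradicted.
`chain_component`: the sets `C_A = connectedComponentIn (f ⁻¹' A) x₀`, `A ∈ 𝒞`, are continua and form a chain (monotone in `A`);
their intersection is a continuum in `f ⁻¹' (⋂₀ 𝒞)` containing `x₀`, so it is contained in
`connectedComponentIn (f ⁻¹' (⋂₀ 𝒞)) x₀ ⊆ U`; apply `chain_subset_open` to the family of the `C_A`. (The component of a point in a
closed subset of a compact space is closed: `IsClosed` of `connectedComponentIn` : it is closed in `f ⁻¹' A` because the closure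
of a preconnected set is preconnected.)
-/

namespace CArc

open Set Topology

theorem chain_aux_open {Y : Type} [TopologicalSpace Y] [CompactSpace Y] {𝒞 : Set (Set Y)}
    (hne : 𝒞.Nonempty) (hch : IsChain (· ⊆ ·) 𝒞) (hC : ∀ A ∈ 𝒞, IsClosed A) {U : Set Y}
    (hU : IsOpen U) (h : ⋂₀ 𝒞 ⊆ U) : ∃ A ∈ 𝒞, A ⊆ U := by
  have : Nonempty 𝒞 := hne.to_subtype
  have hd : Directed (· ⊇ ·) (fun A : 𝒞 => (A : Set Y)) := by
    rintro ⟨A, hA⟩ ⟨B, hB⟩
    rcases hch.total hA hB with h1 | h1
    · exact ⟨⟨A, hA⟩, Subset.rfl, h1⟩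
    · exact ⟨⟨B, hB⟩, h1, Subset.rfl⟩
  obtain ⟨⟨A, hA⟩, hAU⟩ := exists_subset_nhds_of_compactSpace hd (fun A => hC A A.2) (U := U) (by
    intro x hx
    apply hU.mem_nhds
    apply h
    intro A hA
    exact mem_iInter.1 hx ⟨A, hA⟩)
  exact ⟨A, hA, hAU⟩

theorem cont_sInter {Y : Type} [MetricSpace Y] [CompactSpace Y] {𝒞 : Set (Set Y)}
    (hne : 𝒞.Nonempty) (hch : IsChain (· ⊆ ·) 𝒞) (hC : ∀ A ∈ 𝒞, Cont A) : Cont (⋂₀ 𝒞) := by
  have hcl : ∀ A ∈ 𝒞, IsClosed A := fun A hA => (hC A hA).1.isClosed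
  have hTcl : IsClosed (⋂₀ 𝒞) := isClosed_sInter hcl
  refine ⟨hTcl.isCompact, ?_, ?_⟩
  · by_contra hemp
    rw [not_nonempty_iff_eq_empty] at hemp
    obtain ⟨A, hA, hAe⟩ := chain_aux_open hne hch hcl (U := ∅) isOpen_empty (by rw [hemp])
    obtain ⟨y, hy⟩ := (hC A hA).2.nonempty
    exact hAe hy
  · rw [isPreconnected_iff_subset_of_fully_disjoint_closed hTcl]
    intro F G hF hG hTFG hFG
    obtain ⟨U, V, hU, hV, hFU, hGV, hUV⟩ := SeparatedNhds.of_isCompact_isCompact hF.isCompact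
      hG.isCompact hFG
    obtain ⟨A, hA, hAUV⟩ := chain_aux_open hne hch hcl (U := U ∪ V) (hU.union hV)
      (hTFG.trans (union_subset_union hFU hGV))
    have hTA : ⋂₀ 𝒞 ⊆ A := sInter_subset_of_mem hA
    rcases isPreconnected_iff_subset_of_disjoint.1 (hC A hA).2.isPreconnected U V hU hV hAUV
      (by rw [hUV.inter_eq, inter_empty]) with h1 | h1
    · left
      intro y hy
      rcases hTFG hy with h2 | h2
      · exact h2
      · exact absurd (hGV h2) (Set.disjoint_left.1 hUV (h1 (hTA hy)))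
    · right
      intro y hy
      rcases hTFG hy with h2 | h2
      · exact absurd (h1 (hTA hy)) (Set.disjoint_left.1 hUV (hFU h2))
      · exact h2

theorem chain_subset_open {Y : Type} [MetricSpace Y] [CompactSpace Y] {𝒞 : Set (Set Y)}
    (hne : 𝒞.Nonempty) (hch : IsChain (· ⊆ ·) 𝒞) (hC : ∀ A ∈ 𝒞, IsClosed A) {U : Set Y}
    (hU : IsOpen U) (h : ⋂₀ 𝒞 ⊆ U) : ∃ A ∈ 𝒞, A ⊆ U :=
  chain_aux_open hne hch hC hU h

theorem chain_component {X Y : Type} [MetricSpace X] [CompactSpace X] [MetricSpace Y]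
    [CompactSpace Y] {f : X → Y} (hf : Continuous f) {𝒞 : Set (Set Y)}
    (hne : 𝒞.Nonempty) (hch : IsChain (· ⊆ ·) 𝒞) (hC : ∀ A ∈ 𝒞, Cont A) {x₀ : X}
    (hx₀ : ∀ A ∈ 𝒞, f x₀ ∈ A) {U : Set X} (hU : IsOpen U)
    (h : connectedComponentIn (f ⁻¹' (⋂₀ 𝒞)) x₀ ⊆ U) :
    ∃ A ∈ 𝒞, connectedComponentIn (f ⁻¹' A) x₀ ⊆ U := by
  have hcc : ∀ A ∈ 𝒞, Cont (connectedComponentIn (f ⁻¹' A) x₀) := by
    intro A hA
    have hm : x₀ ∈ f ⁻¹' A := hx₀ A hA
    have hcl : IsClosed (f ⁻¹' A) := (hC A hA).1.isClosed.preimage hf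
    have hclosed : IsClosed (connectedComponentIn (f ⁻¹' A) x₀) := by
      apply isClosed_of_closure_subset
      apply IsPreconnected.subset_connectedComponentIn
      · exact isPreconnected_connectedComponentIn.closure
      · exact subset_closure (mem_connectedComponentIn hm)
      · exact closure_minimal (connectedComponentIn_subset _ _) hcl
    exact ⟨hclosed.isCompact, isConnected_connectedComponentIn_iff.2 hm⟩
  have hne' : ((fun A => connectedComponentIn (f ⁻¹' A) x₀) '' 𝒞).Nonempty := hne.image _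
  have hch' : IsChain (· ⊆ ·) ((fun A => connectedComponentIn (f ⁻¹' A) x₀) '' 𝒞) := by
    rintro _ ⟨A, hA, rfl⟩ _ ⟨B, hB, rfl⟩ _
    have hmono : ∀ A' ∈ 𝒞, ∀ B' ∈ 𝒞, A' ⊆ B' → connectedComponentIn (f ⁻¹' A') x₀ ⊆
        connectedComponentIn (f ⁻¹' B') x₀ := by
      intro A' hA' B' hB' hAB
      apply IsPreconnected.subset_connectedComponentIn isPreconnected_connectedComponentIn
      · exact mem_connectedComponentIn (hx₀ A' hA')
      · exact (connectedComponentIn_subset _ _).trans (preimage_mono hAB)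
    rcases hch.total hA hB with h1 | h1
    · exact Or.inl (hmono A hA B hB h1)
    · exact Or.inr (hmono B hB A hA h1)
  have hC' : ∀ K ∈ ((fun A => connectedComponentIn (f ⁻¹' A) x₀) '' 𝒞), Cont K := by
    rintro _ ⟨A, hA, rfl⟩
    exact hcc A hA
  have hI := cont_sInter hne' hch' hC'
  obtain ⟨_, ⟨A, hA, rfl⟩, hAU⟩ := chain_subset_open hne' hch' (fun K hK => (hC' K hK).1.isClosed) hU
    (by
      refine Subset.trans ?_ h
      apply IsPreconnected.subset_connectedComponentIn hI.2.isPreconnected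
      · rintro _ ⟨A, hA, rfl⟩
        exact mem_connectedComponentIn (hx₀ A hA)
      · intro x hx A hA
        exact connectedComponentIn_subset (f ⁻¹' A) x₀ (hx _ ⟨A, hA, rfl⟩))
  exact ⟨A, hA, hAU⟩

end CArc
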