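import Pool.Agent.Helper78.CA.Seg
import Pool.Agent.Helper78.CA.Chain

set_option autoImplicit false

/-!
Let `Bad K = {x | f x ∈ K ∧ ¬ Thr N f ψ K x}`. It is closed (`{x | Thr N f ψ K x}` is open: for a fixed section `s` the set
`{x | Seg N (f x) (s (f x)) (ψ x)}` is open by `seg_open`). If `K ⊆ K'` then `Bad K ⊆ Bad K'`. Zorn (`zorn_superset_nonempty`) for
`𝒮 = {K | Cont K ∧ K ⊆ (the given one) ∧ (Bad K).Nonempty}`: for a nonempty chain `𝒞 ⊆ 𝒮`, the intersection `T = ⋂₀ 𝒞` is a continuum, the sets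
`Bad A` (`A ∈ 𝒞`) are compact, nonempty and form a chain, so there is `x` in all of them; `f x ∈ T`; if `s` were a section over `T` through `x`,
then `T` is contained in the open set `{y | (y, s y) ∈ N}`, hence some `A ∈ 𝒞` is (`chain_subset_open`), and `s` is a section over `A` through `x`:
contradiction. So `T ∈ 𝒮`. For a minimal `K₀`: `K₀ ⊆ K ≠ univ`, so `K₀ ≠ univ`; `K₀` is nontrivial because over a one point set `{f x}` the constant
section `ψ x` goes through `x` (`seg_refl`, `hψN`).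
-/

namespace CArc

open Set Topology

theorem exists_minimal_failing {X Y : Type} [MetricSpace X] [CompactSpace X] [MetricSpace Y]
    [CompactSpace Y] {f : X → Y} (hf : Continuous f) {N : Set (Y × ℝ)} (hN : IsOpen N)
    {ψ : X → ℝ} (hψ : Continuous ψ) (hψN : ∀ x, (f x, ψ x) ∈ N) {K : Set Y} (hK : Cont K)
    (hKu : K ≠ univ) (hbad : ¬ EP N f ψ K) :
    ∃ K₀ : Set Y, Cont K₀ ∧ K₀ ≠ univ ∧ ¬ EP N f ψ K₀ ∧ K₀.Nontrivial ∧
      ∀ K' : Set Y, Cont K' → K' ⊆ K₀ → K' ≠ K₀ → EP N f ψ K' := by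
  classical
  let Bad : Set Y → Set X := fun K => {x | f x ∈ K ∧ ¬ Thr N f ψ K x}
  have hopen : ∀ K, IsOpen {x | Thr N f ψ K x} := by
    intro K
    have h1 : {x | Thr N f ψ K x} =
        ⋃ s : {s : Y → ℝ // Sec N K s}, {x | Seg N (f x) (s.1 (f x)) (ψ x)} := by
      ext x
      simp only [Thr, mem_ofPred_eq, mem_iUnion]
      constructor
      · rintro ⟨s, hs, h⟩
        exact ⟨⟨s, hs⟩, h⟩
      · rintro ⟨⟨s, hs⟩, h⟩
        exact ⟨s, hs, h⟩
    rw [h1]
    exact isOpen_iUnion (fun s => seg_open hN hf (s.2.1.comp hf) hψ)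
  have hclosed : ∀ K, IsClosed K → IsClosed (Bad K) := by
    intro K hK
    have h1 : Bad K = f ⁻¹' K ∩ {x | Thr N f ψ K x}ᶜ := by
      ext x
      rfl
    rw [h1]
    exact (hK.preimage hf).inter (hopen K).isClosed_compl
  have hmono : ∀ K K', K ⊆ K' → Bad K ⊆ Bad K' := by
    rintro K K' h x ⟨hx, hx'⟩
    refine ⟨h hx, ?_⟩
    rintro ⟨s, hs, hseg⟩
    exact hx' ⟨s, ⟨hs.1, fun y hy => hs.2 y (h hy)⟩, hseg⟩
  have hne_of : ∀ K', ¬ EP N f ψ K' → (Bad K').Nonempty := by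
    intro K' hb
    by_contra hne
    apply hb
    intro x hx
    by_contra hx'
    exact hne ⟨x, hx, hx'⟩
  let S : Set (Set Y) := {K' | Cont K' ∧ K' ⊆ K ∧ (Bad K').Nonempty}
  have hKS : K ∈ S := ⟨hK, Subset.rfl, hne_of K hbad⟩
  obtain ⟨K₀, hK₀K, hmin⟩ := zorn_superset_nonempty S (by
    intro c hcS hch hcne
    refine ⟨⋂₀ c, ⟨cont_sInter hcne hch (fun A hA => (hcS hA).1), ?_, ?_⟩,
      fun s hs => sInter_subset_of_mem hs⟩
    · obtain ⟨A, hA⟩ := hcne
      exact (sInter_subset_of_mem hA).trans (hcS hA).2.1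
    · by_contra hemp
      have hinter : ⋂₀ (Bad '' c) ⊆ (∅ : Set X) := by
        intro x hx
        apply hemp
        have hx' : ∀ A ∈ c, x ∈ Bad A := fun A hA => hx _ ⟨A, hA, rfl⟩
        refine ⟨x, fun A hA => (hx' A hA).1, ?_⟩
        rintro ⟨s, hs, hseg⟩
        have hU : IsOpen {y | (y, s y) ∈ N} :=
          hN.preimage (continuous_id.prodMk hs.1)
        obtain ⟨A, hA, hAU⟩ := chain_subset_open hcne hch
          (fun A hA => (hcS hA).1.1.isClosed) hU (fun y hy => hs.2 y hy)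
        exact (hx' A hA).2 ⟨s, ⟨hs.1, fun y hy => hAU hy⟩, hseg⟩
      have hch' : IsChain (· ⊆ ·) (Bad '' c) := by
        rintro _ ⟨A, hA, rfl⟩ _ ⟨B, hB, rfl⟩ _
        rcases hch.total hA hB with h | h
        · exact Or.inl (hmono _ _ h)
        · exact Or.inr (hmono _ _ h)
      obtain ⟨_, ⟨A, hA, rfl⟩, hAe⟩ := chain_subset_open (hcne.image Bad) hch'
        (by
          rintro _ ⟨A, hA, rfl⟩
          exact hclosed A (hcS hA).1.1.isClosed) isOpen_empty hinter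
      obtain ⟨x, hx⟩ := (hcS hA).2.2
      exact hAe hx) K hKS
  obtain ⟨hC₀, hsub, x, hx, hxbad⟩ := hmin.prop
  refine ⟨K₀, hC₀, ?_, fun h => hxbad (h x hx), ?_, ?_⟩
  · intro h
    apply hKu
    rw [h] at hK₀K
    exact univ_subset_iff.1 hK₀K
  · by_contra hnt
    rw [not_nontrivial_iff] at hnt
    apply hxbad
    refine ⟨fun _ => ψ x, ⟨continuous_const, ?_⟩, seg_refl (hψN x)⟩
    intro y hy
    rw [hnt hy hx]
    exact hψN x
  · intro K' hK' hsub' hne
    by_contra hb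
    apply hne
    exact Subset.antisymm hsub'
      (hmin.le_of_le ⟨hK', hsub'.trans hsub, hne_of K' hb⟩ hsub')

end CArc
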