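import Pool.Agent.Helper78.CA.Seg
import Pool.Agent.Helper78.CA.Sep

set_option autoImplicit false

/-!
Gluing sections over two continua. Let `UA = {y | (y, sA y) ∈ N} ⊇ A`, `UB = {y | (y, sB y) ∈ N} ⊇ B`
and `E = {y | Seg N y (sA y) (sB y)}`, all open, `E ⊆ UA ∩ UB`, `y₁ ∈ E`, `K = A ∪ B`, `Z = K \ E`.
If `y₀ ∉ B` put `P = ((K \ UB) ∪ {y₀}) \ E`, otherwise `P = K \ UB`; `Q = K \ UA`. Both are closed, `P ⊆ A \ B`,
`Q ⊆ B \ A`. A continuum `H ⊆ Z` meeting both would contain `A ∩ B ∋ y₁ ∈ E` by `HH`: impossible. `sep`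
gives closed disjoint `Z₁ ∪ Z₂ = Z`, `P ⊆ Z₁`, `Q ⊆ Z₂`; `u` Urysohn with `u = 0` on `Z₁`, `u = 1` on `Z₂`;
`s = (1 - u) sA + u sB`. For `y ∈ E` the value lies between; for `y ∈ Z₁` it is `sA y` and `y ∈ UA`
(otherwise `y ∈ Q ⊆ Z₂`); similarly on `Z₂`. At `y₀`: if `y₀ ∈ E` (in particular if `y₀ = y₁`) use
`seg_mono_right`; otherwise `y₀ ∈ P ⊆ Z₁` and `s y₀ = sA y₀`.
-/

namespace CArc

open Set Topology

theorem two_aux1 {a b u : ℝ} (h0 : 0 ≤ u) (h1 : u ≤ 1) : (1 - u) * a + u * b ∈ Set.uIcc a b := by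
  rw [← segment_eq_uIcc]
  exact ⟨1 - u, u, by linarith, h0, by ring, by simp [smul_eq_mul]⟩

theorem glue_two {Y : Type} [MetricSpace Y] [CompactSpace Y] {N : Set (Y × ℝ)} (hN : IsOpen N)
    (hH : HH Y) {A B : Set Y} (hA : Cont A) (hB : Cont B) {sA sB : Y → ℝ}
    (h₁ : Sec N A sA) (h₂ : Sec N B sB) {y₀ y₁ : Y} (hy₁A : y₁ ∈ A) (hy₁B : y₁ ∈ B)
    (hseg : Seg N y₁ (sA y₁) (sB y₁)) (hy₀ : y₀ ∈ A) (hy₀' : y₀ ∉ B ∨ y₀ = y₁) :
    ∃ s : Y → ℝ, Sec N (A ∪ B) s ∧ Seg N y₀ (sA y₀) (s y₀) := by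
  have hcA : Continuous fun y : Y => (y, sA y) := continuous_id.prodMk h₁.1
  have hcB : Continuous fun y : Y => (y, sB y) := continuous_id.prodMk h₂.1
  set UA : Set Y := {y | (y, sA y) ∈ N} with hUA
  set UB : Set Y := {y | (y, sB y) ∈ N} with hUB
  set E : Set Y := {y | Seg N y (sA y) (sB y)} with hE
  have oUA : IsOpen UA := hN.preimage hcA
  have oUB : IsOpen UB := hN.preimage hcB
  have oE : IsOpen E := seg_open hN continuous_id h₁.1 h₂.1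
  have hAUA : A ⊆ UA := fun y hy => h₁.2 y hy
  have hBUB : B ⊆ UB := fun y hy => h₂.2 y hy
  have hEUA : E ⊆ UA := fun y hy => seg_left hy
  have hEUB : E ⊆ UB := fun y hy => seg_right hy
  have hKcl : IsClosed (A ∪ B) := hA.1.isClosed.union hB.1.isClosed
  have hZcl : IsClosed ((A ∪ B) \ E) := hKcl.sdiff oE
  set S₀ : Set Y := {y | y = y₀ ∧ y₀ ∉ B ∧ y₀ ∉ E} with hS₀
  have hS₀cl : IsClosed S₀ := by
    apply Set.Subsingleton.isClosed
    intro a ha b hb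
    rw [ha.1, hb.1]
  have hPcl : IsClosed ((A ∪ B) \ UB ∪ S₀) := (hKcl.sdiff oUB).union hS₀cl
  have hQcl : IsClosed ((A ∪ B) \ UA) := hKcl.sdiff oUA
  have hPZ : (A ∪ B) \ UB ∪ S₀ ⊆ (A ∪ B) \ E := by
    rintro y (hy | hy)
    · exact ⟨hy.1, fun h => hy.2 (hEUB h)⟩
    · rw [hy.1]
      exact ⟨Or.inl hy₀, hy.2.2⟩
  have hQZ : (A ∪ B) \ UA ⊆ (A ∪ B) \ E := fun y hy => ⟨hy.1, fun h => hy.2 (hEUA h)⟩
  have hPA : (A ∪ B) \ UB ∪ S₀ ⊆ A \ B := by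
    rintro y (hy | hy)
    · have hyB : y ∉ B := fun h => hy.2 (hBUB h)
      exact ⟨hy.1.resolve_right hyB, hyB⟩
    · rw [hy.1]
      exact ⟨hy₀, hy.2.1⟩
  have hQB : (A ∪ B) \ UA ⊆ B \ A := by
    intro y hy
    have hyA : y ∉ A := fun h => hy.2 (hAUA h)
    exact ⟨hy.1.resolve_left hyA, hyA⟩
  obtain ⟨Z₁, Z₂, hZ₁, hZ₂, hZ, hdis, hP₁, hQ₂⟩ := sep hZcl hPcl hQcl hPZ hQZ (by
    intro H hHc hHZ hHP hHQ
    have h3 := hH A B H hA hB hHc (fun y hy => (hHZ hy).1)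
      (hHP.mono (inter_subset_inter_right H hPA)) (hHQ.mono (inter_subset_inter_right H hQB))
    exact (hHZ (h3 ⟨hy₁A, hy₁B⟩)).2 hseg)
  obtain ⟨u, hu0, hu1, hu⟩ := exists_continuous_zero_one_of_isClosed hZ₁ hZ₂ hdis
  have hs : ∀ y, (1 - u y) * sA y + u y * sB y ∈ Set.uIcc (sA y) (sB y) :=
    fun y => two_aux1 (hu y).1 (hu y).2
  refine ⟨fun y => (1 - u y) * sA y + u y * sB y, ⟨?_, ?_⟩, ?_⟩
  · exact ((continuous_const.sub u.continuous).mul h₁.1).add (u.continuous.mul h₂.1)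
  · intro y hy
    by_cases hyE : y ∈ E
    · exact hyE _ (hs y)
    · have hyZ : y ∈ Z₁ ∪ Z₂ := by rw [hZ]; exact ⟨hy, hyE⟩
      rcases hyZ with h | h
      · have e : u y = 0 := hu0 h
        have hyU : y ∈ UA := by
          by_contra hc
          exact Set.disjoint_left.mp hdis h (hQ₂ ⟨hy, hc⟩)
        show (y, (1 - u y) * sA y + u y * sB y) ∈ N
        rw [e]
        have e2 : (1 - 0) * sA y + 0 * sB y = sA y := by ring
        rw [e2]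
        exact hyU
      · have e : u y = 1 := hu1 h
        have hyU : y ∈ UB := by
          by_contra hc
          exact Set.disjoint_left.mp hdis (hP₁ (Or.inl ⟨hy, hc⟩)) h
        show (y, (1 - u y) * sA y + u y * sB y) ∈ N
        rw [e]
        have e2 : (1 - 1) * sA y + 1 * sB y = sB y := by ring
        rw [e2]
        exact hyU
  · by_cases hyE : y₀ ∈ E
    · exact seg_mono_right hyE (hs y₀)
    · have hne : y₀ ∉ B := by
        rcases hy₀' with h | h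
        · exact h
        · exact absurd (h ▸ hseg) hyE
      have h4 : y₀ ∈ Z₁ := hP₁ (Or.inr ⟨rfl, hne, hyE⟩)
      have e : u y₀ = 0 := hu0 h4
      show Seg N y₀ (sA y₀) ((1 - u y₀) * sA y₀ + u y₀ * sB y₀)
      rw [e]
      have e2 : (1 - 0) * sA y₀ + 0 * sB y₀ = sA y₀ := by ring
      rw [e2]
      exact seg_refl (h₁.2 y₀ hy₀)

end CArc
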