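import Pool.Agent.Helper78.CA.Scale

set_option autoImplicit false

/-!
Choose `x` with `f x = p` and `Cᵢ = connectedComponentIn (f ⁻¹' Tᵢ) x`; by confluence `f '' Cᵢ = Tᵢ`,
so there are `cᵢ ∈ Cᵢ`, `f cᵢ = tᵢ`. Let `δ > 0` be at most all the six positive numbers
`Metric.infDist tᵢ Tⱼ` (`i ≠ j`), `ψ` from `exists_scale` for `δ`. Then `ψ cᵢ ∉ ψ '' Cⱼ` for `i ≠ j` (if `ψ cᵢ = ψ c`,
`c ∈ Cⱼ`, then `dist tᵢ (f c) < δ` with `f c ∈ Tⱼ`). The sets `ψ '' Cᵢ` are intervals (preconnected subsets of `ℝ`)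
containing `ψ x` and `ψ cᵢ`. Two of the three numbers `ψ cᵢ` are on the same side of `ψ x`, say
`ψ x ≤ ψ cᵢ ≤ ψ cⱼ`; then `ψ cᵢ ∈ ψ '' Cⱼ`: contradiction.
-/

namespace CArc

open Set Topology

theorem triod_two {J₁ J₂ : Set ℝ} (h₁ : J₁.OrdConnected) (h₂ : J₂.OrdConnected) {a b₁ b₂ : ℝ}
    (ha₁ : a ∈ J₁) (ha₂ : a ∈ J₂) (hb₁ : b₁ ∈ J₁) (hb₂ : b₂ ∈ J₂)
    (h : (a ≤ b₁ ∧ a ≤ b₂) ∨ (b₁ ≤ a ∧ b₂ ≤ a)) : b₁ ∈ J₂ ∨ b₂ ∈ J₁ := by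
  rcases h with ⟨h1, h2⟩ | ⟨h1, h2⟩
  · rcases le_total b₁ b₂ with h | h
    · exact Or.inl (h₂.out ha₂ hb₂ ⟨h1, h⟩)
    · exact Or.inr (h₁.out ha₁ hb₁ ⟨h2, h⟩)
  · rcases le_total b₁ b₂ with h | h
    · exact Or.inr (h₁.out hb₁ ha₁ ⟨h, h2⟩)
    · exact Or.inl (h₂.out hb₂ ha₂ ⟨h, h1⟩)

theorem triod_sep {X Y : Type} [MetricSpace Y] {f : X → Y} {ψ : X → ℝ} {δ : ℝ}
    (hψ : ∀ x x' : X, |ψ x - ψ x'| ≤ 3 → dist (f x) (f x') < δ) {T : Set Y} {C : Set X}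
    (hC : f '' C = T) {t : Y} {c : X} (hc : f c = t) (hδ : δ ≤ Metric.infDist t T) :
    ψ c ∉ ψ '' C := by
  rintro ⟨c', hc', h⟩
  have h1 : dist (f c) (f c') < δ := by
    apply hψ
    rw [h, sub_self, abs_zero]
    norm_num
  have h2 : f c' ∈ T := hC ▸ mem_image_of_mem f hc'
  have h3 := Metric.infDist_le_dist_of_mem (x := t) h2
  rw [← hc] at h3 hδ
  linarith

theorem no_triod {X Y : Type} [MetricSpace X] [CompactSpace X] [MetricSpace Y] [CompactSpace Y]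
    (hX : ArcLike X) {f : X → Y} (hf : Continuous f) (hsurj : Function.Surjective f)
    (hconf : Confl f) {T₁ T₂ T₃ : Set Y} (h₁ : Cont T₁) (h₂ : Cont T₂) (h₃ : Cont T₃)
    {p t₁ t₂ t₃ : Y} (hp₁ : p ∈ T₁) (hp₂ : p ∈ T₂) (hp₃ : p ∈ T₃)
    (ht₁ : t₁ ∈ T₁) (ht₂ : t₂ ∈ T₂) (ht₃ : t₃ ∈ T₃)
    (h12 : t₁ ∉ T₂) (h13 : t₁ ∉ T₃) (h21 : t₂ ∉ T₁) (h23 : t₂ ∉ T₃)
    (h31 : t₃ ∉ T₁) (h32 : t₃ ∉ T₂) : False := by
  obtain ⟨x, hx⟩ := hsurj p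
  -- lifting
  have lift : ∀ (T : Set Y), Cont T → ∀ t : Y, t ∈ T → p ∈ T → ∃ C : Set X, ∃ c ∈ C,
      x ∈ C ∧ IsPreconnected C ∧ f '' C = T ∧ f c = t := by
    intro T hT t ht hp
    have hxT : x ∈ f ⁻¹' T := by
      change f x ∈ T
      rw [hx]
      exact hp
    have him := hconf T hT.1 hT.2 x hxT
    rw [← him] at ht
    obtain ⟨c, hc, hct⟩ := ht
    exact ⟨_, c, hc, mem_connectedComponentIn hxT, isPreconnected_connectedComponentIn, him, hct⟩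
  obtain ⟨C₁, c₁, hc₁, hx₁, hC₁, hi₁, hf₁⟩ := lift T₁ h₁ t₁ ht₁ hp₁
  obtain ⟨C₂, c₂, hc₂, hx₂, hC₂, hi₂, hf₂⟩ := lift T₂ h₂ t₂ ht₂ hp₂
  obtain ⟨C₃, c₃, hc₃, hx₃, hC₃, hi₃, hf₃⟩ := lift T₃ h₃ t₃ ht₃ hp₃
  -- the scale
  have pos : ∀ (T : Set Y), Cont T → ∀ t : Y, t ∉ T → 0 < Metric.infDist t T := by
    intro T hT t ht
    exact (hT.1.isClosed.notMem_iff_infDist_pos hT.2.nonempty).mp ht
  set δ : ℝ := min (min (min (Metric.infDist t₁ T₂) (Metric.infDist t₁ T₃))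
    (min (Metric.infDist t₂ T₁) (Metric.infDist t₂ T₃)))
    (min (Metric.infDist t₃ T₁) (Metric.infDist t₃ T₂)) with hδ
  have hδ0 : 0 < δ := by
    refine lt_min (lt_min (lt_min ?_ ?_) (lt_min ?_ ?_)) (lt_min ?_ ?_)
    · exact pos _ h₂ _ h12
    · exact pos _ h₃ _ h13
    · exact pos _ h₁ _ h21
    · exact pos _ h₃ _ h23
    · exact pos _ h₁ _ h31
    · exact pos _ h₂ _ h32
  have d12 : δ ≤ Metric.infDist t₁ T₂ :=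
    (min_le_left _ _).trans ((min_le_left _ _).trans (min_le_left _ _))
  have d13 : δ ≤ Metric.infDist t₁ T₃ :=
    (min_le_left _ _).trans ((min_le_left _ _).trans (min_le_right _ _))
  have d21 : δ ≤ Metric.infDist t₂ T₁ :=
    (min_le_left _ _).trans ((min_le_right _ _).trans (min_le_left _ _))
  have d23 : δ ≤ Metric.infDist t₂ T₃ :=
    (min_le_left _ _).trans ((min_le_right _ _).trans (min_le_right _ _))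
  have d31 : δ ≤ Metric.infDist t₃ T₁ := (min_le_right _ _).trans (min_le_left _ _)
  have d32 : δ ≤ Metric.infDist t₃ T₂ := (min_le_right _ _).trans (min_le_right _ _)
  obtain ⟨ψ, hψc, hψ⟩ := exists_scale hX hf hδ0
  have n12 := triod_sep hψ hi₂ hf₁ d12
  have n13 := triod_sep hψ hi₃ hf₁ d13
  have n21 := triod_sep hψ hi₁ hf₂ d21
  have n23 := triod_sep hψ hi₃ hf₂ d23
  have n31 := triod_sep hψ hi₁ hf₃ d31
  have n32 := triod_sep hψ hi₂ hf₃ d32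
  have o₁ : (ψ '' C₁).OrdConnected := (hC₁.image ψ hψc.continuousOn).ordConnected
  have o₂ : (ψ '' C₂).OrdConnected := (hC₂.image ψ hψc.continuousOn).ordConnected
  have o₃ : (ψ '' C₃).OrdConnected := (hC₃.image ψ hψc.continuousOn).ordConnected
  have a₁ : ψ x ∈ ψ '' C₁ := mem_image_of_mem ψ hx₁
  have a₂ : ψ x ∈ ψ '' C₂ := mem_image_of_mem ψ hx₂
  have a₃ : ψ x ∈ ψ '' C₃ := mem_image_of_mem ψ hx₃
  have b₁ : ψ c₁ ∈ ψ '' C₁ := mem_image_of_mem ψ hc₁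
  have b₂ : ψ c₂ ∈ ψ '' C₂ := mem_image_of_mem ψ hc₂
  have b₃ : ψ c₃ ∈ ψ '' C₃ := mem_image_of_mem ψ hc₃
  have k12 := fun h => (triod_two o₁ o₂ a₁ a₂ b₁ b₂ h).elim n12 n21
  have k13 := fun h => (triod_two o₁ o₃ a₁ a₃ b₁ b₃ h).elim n13 n31
  have k23 := fun h => (triod_two o₂ o₃ a₂ a₃ b₂ b₃ h).elim n23 n32
  rcases le_total (ψ x) (ψ c₁) with e₁ | e₁ <;> rcases le_total (ψ x) (ψ c₂) with e₂ | e₂ <;>
    rcases le_total (ψ x) (ψ c₃) with e₃ | e₃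
  · exact k12 (Or.inl ⟨e₁, e₂⟩)
  · exact k12 (Or.inl ⟨e₁, e₂⟩)
  · exact k13 (Or.inl ⟨e₁, e₃⟩)
  · exact k23 (Or.inr ⟨e₂, e₃⟩)
  · exact k23 (Or.inl ⟨e₂, e₃⟩)
  · exact k13 (Or.inr ⟨e₁, e₃⟩)
  · exact k12 (Or.inr ⟨e₁, e₂⟩)
  · exact k12 (Or.inr ⟨e₁, e₂⟩)

end CArc
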