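import Pool.Agent.Helper78.CA.Good
import Pool.Agent.Helper78.CA.Two

set_option autoImplicit false

/-!
Let `T = ⋂₀ 𝒞`, a continuum, `f x₀ ∈ T`, `T ⊆ K₀`, `T ≠ K₀` (`T ⊆ A ≠ K₀`, `A ⊆ K₀`), so `EP N f ψ T`. Choose `par A` for `A ∈ 𝒞`
from `h𝒞` (for `A ∉ 𝒞` arbitrary). Let `C = connectedComponentIn (f ⁻¹' T) x₀`.
Claim: for all `p ∈ C` there is `s` with `Sec N T s`, `Good N f ψ x₀ 𝒞 par s`, `Seg N (f p) (s (f p)) (ψ p)`. The set `G` of such `p` contains `x₀`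
(`EP` of `T` and `good_of_thr`); `G` is relatively open in `C` (`seg_open`); `C \ G` is relatively open in `C`: for `p ∈ C \ G` take a section `s` over `T`
through `p` (`EP`), for `p'` near `p` it is also through `p'`; if `p' ∈ G` with `s'`, then `Seg N (f p') (s' (f p')) (s (f p'))` and `f p' ∈ T`, so `s` is good by
`good_step` and `p ∈ G`. As `C` is preconnected, `G = C`. (For example: `U` = union over good `s` of the open sets `O_s = {x | Seg N (f x) (s (f x)) (ψ x)}`,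
`V` = union over the other sections `s` over `T` of `O_s`; `U ∪ V ⊇ C`, and `C ∩ U ∩ V = ∅` by `good_step`; `isPreconnected` definition.)
Compactness of `C`: finitely many good sections `s_i` with `C ⊆ ⋃ O_{s_i}` (open). By `chain_component` there is `A₂ ∈ 𝒞` with
`connectedComponentIn (f ⁻¹' A₂) x₀ ⊆ ⋃ O_{s_i}`; let `A` be the smallest of `A₂` and of the witnesses of `Good s_i` (chain). `K₀` is connected, so there is
`z ∈ A ∩ par A`. By confluence there is `x₁ ∈ connectedComponentIn (f ⁻¹' A) x₀` with `f x₁ = z`; `x₁ ∈ O_{s_i}` for some `i`. `Good s_i` gives `τ` over `A`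
with `Seg N (f x₀) (τ (f x₀)) (ψ x₀)` and `τ z = s_i z`. `EP` of `par A` gives a section `sB` over `par A` with `Seg N z (sB z) (ψ x₁)`. So
`Seg N z (τ z) (sB z)`. `glue_two` with `A`, `par A`, `y₁ = z`, `y₀ = f x₀ ∈ A`, `f x₀ ∉ par A` (by `hstar`) gives a section over `A ∪ par A = K₀` through
`x₀`, contradicting `hbad`.
-/

namespace CArc

open Set Topology

theorem case_chain {X Y : Type} [MetricSpace X] [CompactSpace X] [MetricSpace Y]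
    [CompactSpace Y] {f : X → Y} (hf : Continuous f) (hconf : Confl f) (hH : HH Y)
    {N : Set (Y × ℝ)} (hN : IsOpen N) {ψ : X → ℝ} (hψ : Continuous ψ) {x₀ : X} {K₀ : Set Y}
    (hK₀ : Cont K₀) (hEP : ∀ K' : Set Y, Cont K' → K' ⊆ K₀ → K' ≠ K₀ → EP N f ψ K')
    (hbad : ¬ Thr N f ψ K₀ x₀)
    (hstar : ∀ A B : Set Y, Cont A → Cont B → A ∪ B = K₀ → A ≠ K₀ → B ≠ K₀ → f x₀ ∈ A →
      f x₀ ∈ B → False)
    {𝒞 : Set (Set Y)} (hne : 𝒞.Nonempty) (hch : IsChain (· ⊆ ·) 𝒞)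
    (h𝒞 : ∀ A ∈ 𝒞, Cont A ∧ A ≠ K₀ ∧ f x₀ ∈ A ∧ A ⊆ K₀ ∧
      ∃ B : Set Y, Cont B ∧ A ∪ B = K₀ ∧ B ≠ K₀)
    (hT : ∀ B' : Set Y, Cont B' → (⋂₀ 𝒞) ∪ B' = K₀ → B' ≠ K₀ → False) : False := by
  classical
  have hpar0 : ∀ A : Set Y, ∃ B : Set Y, A ∈ 𝒞 → Cont B ∧ A ∪ B = K₀ ∧ B ≠ K₀ := by
    intro A
    by_cases hA : A ∈ 𝒞
    · obtain ⟨B, hB⟩ := (h𝒞 A hA).2.2.2.2
      exact ⟨B, fun _ => hB⟩
    · exact ⟨∅, fun h => absurd h hA⟩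
  choose par hpar using hpar0
  have hcont : ∀ A ∈ 𝒞, Cont A := fun A hA => (h𝒞 A hA).1
  have h𝒞' : ∀ A ∈ 𝒞, Cont A ∧ A ≠ K₀ ∧ f x₀ ∈ A ∧ A ⊆ K₀ := fun A hA =>
    ⟨(h𝒞 A hA).1, (h𝒞 A hA).2.1, (h𝒞 A hA).2.2.1, (h𝒞 A hA).2.2.2.1⟩
  have hTc : Cont (⋂₀ 𝒞) := cont_sInter hne hch hcont
  have hx₀T : f x₀ ∈ ⋂₀ 𝒞 := fun A hA => (h𝒞' A hA).2.2.1
  have hTK : ⋂₀ 𝒞 ⊆ K₀ := by
    obtain ⟨A₀, hA₀⟩ := hne
    exact (sInter_subset_of_mem hA₀).trans (h𝒞' A₀ hA₀).2.2.2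
  have hTne : ⋂₀ 𝒞 ≠ K₀ := by
    obtain ⟨A₀, hA₀⟩ := hne
    intro h
    exact (h𝒞' A₀ hA₀).2.1 (Subset.antisymm (h𝒞' A₀ hA₀).2.2.2
      (h ▸ sInter_subset_of_mem hA₀))
  have hEPT := hEP _ hTc hTK hTne
  have hO : ∀ s : Y → ℝ, Continuous s → IsOpen {x : X | Seg N (f x) (s (f x)) (ψ x)} :=
    fun s hs => seg_open hN hf (hs.comp hf) hψ
  have hx₀C : x₀ ∈ connectedComponentIn (f ⁻¹' ⋂₀ 𝒞) x₀ := mem_connectedComponentIn hx₀T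
  have hCsub : connectedComponentIn (f ⁻¹' ⋂₀ 𝒞) x₀ ⊆ f ⁻¹' ⋂₀ 𝒞 :=
    connectedComponentIn_subset _ _
  have hpre : IsPreconnected (connectedComponentIn (f ⁻¹' ⋂₀ 𝒞) x₀) :=
    isPreconnected_connectedComponentIn
  have hCcl : IsClosed (connectedComponentIn (f ⁻¹' ⋂₀ 𝒞) x₀) :=
    isClosed_of_closure_subset (hpre.closure.subset_connectedComponentIn (subset_closure hx₀C)
      (closure_minimal hCsub (hTc.1.isClosed.preimage hf)))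
  generalize hCdef : connectedComponentIn (f ⁻¹' ⋂₀ 𝒞) x₀ = C at hx₀C hCsub hpre hCcl
  let G : Set (Y → ℝ) := {s | Sec N (⋂₀ 𝒞) s ∧ Good N f ψ x₀ 𝒞 par s}
  let G' : Set (Y → ℝ) := {s | Sec N (⋂₀ 𝒞) s ∧ ¬ Good N f ψ x₀ 𝒞 par s}
  let O : (Y → ℝ) → Set X := fun s => {x : X | Seg N (f x) (s (f x)) (ψ x)}
  have hU : IsOpen (⋃ s ∈ G, O s) := isOpen_biUnion fun s hs => hO s hs.1.1
  have hV : IsOpen (⋃ s ∈ G', O s) := isOpen_biUnion fun s hs => hO s hs.1.1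
  have hcov : C ⊆ (⋃ s ∈ G, O s) ∪ (⋃ s ∈ G', O s) := by
    intro p hp
    obtain ⟨s, hs, hsp⟩ := hEPT p (hCsub hp)
    by_cases hg : Good N f ψ x₀ 𝒞 par s
    · exact Or.inl (mem_biUnion (show s ∈ G from ⟨hs, hg⟩) hsp)
    · exact Or.inr (mem_biUnion (show s ∈ G' from ⟨hs, hg⟩) hsp)
  have hx₀U : x₀ ∈ ⋃ s ∈ G, O s := by
    obtain ⟨s, hs, hsp⟩ := hEPT x₀ hx₀T
    exact mem_biUnion (show s ∈ G from ⟨hs, good_of_thr hN hne hch hcont hs hsp⟩) hsp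
  have hCU : C ⊆ ⋃ s ∈ G, O s := by
    intro p hp
    rcases hcov hp with h | h
    · exact h
    · obtain ⟨q, hqC, hqU, hqV⟩ := hpre _ _ hU hV hcov ⟨x₀, hx₀C, hx₀U⟩ ⟨p, hp, h⟩
      obtain ⟨s, hs, hsq⟩ := mem_iUnion₂.1 hqU
      obtain ⟨s', hs', hsq'⟩ := mem_iUnion₂.1 hqV
      exact absurd (good_step hN hK₀ hstar hne hch h𝒞' hT (fun A hA => hpar A hA) hs.1 hs'.1
        hs.2 (hCsub hqC) (seg_trans hsq (seg_symm hsq'))) hs'.2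
  obtain ⟨F, hFG, hFfin, hCF⟩ := hCcl.isCompact.elim_finite_subcover_image (b := G) (c := O)
    (fun s hs => hO s hs.1.1) hCU
  have hFo : IsOpen (⋃ s ∈ F, O s) := isOpen_biUnion fun s hs => hO s (hFG hs).1.1
  obtain ⟨A₂, hA₂, hA₂U⟩ := chain_component hf hne hch hcont (x₀ := x₀)
    (fun A hA => (h𝒞' A hA).2.2.1) hFo (hCdef ▸ hCF)
  have key : ∀ F : Set (Y → ℝ), F.Finite → F ⊆ G → ∃ A ∈ 𝒞, A ⊆ A₂ ∧ ∀ s ∈ F, ∀ A' ∈ 𝒞,
      A' ⊆ A → ∃ τ : Y → ℝ, Sec N A' τ ∧ Seg N (f x₀) (τ (f x₀)) (ψ x₀) ∧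
        ∀ y ∈ A' ∩ par A', τ y = s y := by
    intro F hF
    induction F, hF using Set.Finite.induction_on with
    | empty => intro _; exact ⟨A₂, hA₂, Subset.rfl, by simp⟩
    | @insert a S _ _ ih =>
      intro hsub
      obtain ⟨A, hA, hAA₂, hAS⟩ := ih ((subset_insert _ _).trans hsub)
      obtain ⟨A₁, hA₁, hgood⟩ := (hsub (mem_insert _ _)).2
      rcases hch.total hA hA₁ with h | h
      · refine ⟨A, hA, hAA₂, ?_⟩
        intro s hs A' hA' hA'A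
        rcases hs with rfl | hs
        · exact hgood A' hA' (hA'A.trans h)
        · exact hAS s hs A' hA' hA'A
      · refine ⟨A₁, hA₁, h.trans hAA₂, ?_⟩
        intro s hs A' hA' hA'A
        rcases hs with rfl | hs
        · exact hgood A' hA' hA'A
        · exact hAS s hs A' hA' (hA'A.trans h)
  obtain ⟨A, hA, hAA₂, hAF⟩ := key F hFfin hFG
  obtain ⟨hAc, hAne, hx₀A, hAK⟩ := h𝒞' A hA
  obtain ⟨hBc, hABu, hBne⟩ := hpar A hA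
  have hBK : par A ⊆ K₀ := by
    rw [← hABu]
    exact subset_union_right
  obtain ⟨z, -, hzA, hzB⟩ : (K₀ ∩ (A ∩ par A)).Nonempty := by
    refine isPreconnected_closed_iff.1 hK₀.2.isPreconnected A (par A) hAc.1.isClosed
      hBc.1.isClosed hABu.symm.subset ⟨f x₀, hAK hx₀A, hx₀A⟩ ?_
    obtain ⟨b, hb⟩ := hBc.2.nonempty
    exact ⟨b, hBK hb, hb⟩
  obtain ⟨x₁, hx₁, hx₁z⟩ : z ∈ f '' connectedComponentIn (f ⁻¹' A) x₀ := by
    rw [hconf A hAc.1 hAc.2 x₀ hx₀A]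
    exact hzA
  have hx₁' : x₁ ∈ connectedComponentIn (f ⁻¹' A₂) x₀ :=
    connectedComponentIn_mono x₀ (preimage_mono hAA₂) hx₁
  obtain ⟨s, hsF, hsx⟩ := mem_iUnion₂.1 (hA₂U hx₁')
  obtain ⟨τ, hτ, hτx, hτs⟩ := hAF s hsF A hA Subset.rfl
  obtain ⟨sB, hsB, hsBx⟩ := hEP (par A) hBc hBK hBne x₁ (by rw [hx₁z]; exact hzB)
  have hfx₀ : f x₀ ∉ par A := fun h => hstar A (par A) hAc hBc hABu hAne hBne hx₀A h
  have hseg : Seg N z (τ z) (sB z) := by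
    have h1 : Seg N (f x₁) (s (f x₁)) (ψ x₁) := hsx
    rw [hx₁z] at h1 hsBx
    rw [hτs z ⟨hzA, hzB⟩]
    exact seg_trans h1 (seg_symm hsBx)
  obtain ⟨σ, hσ, hσx⟩ := glue_two hN hH hAc hBc hτ hsB hzA hzB hseg hx₀A (Or.inl hfx₀)
  rw [hABu] at hσ
  exact hbad ⟨σ, hσ, seg_trans (seg_symm hσx) hτx⟩

end CArc
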