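import Pool.Agent.Helper78.CA.Defs

set_option autoImplicit false

/-!
`case_min`. `y ∉ B₀` by `hstar T₀ B₀`. `T₀ ∩ B₀ ≠ ∅` (`K₀` connected, both closed and nonempty), so `T₀` has two points; `hdec`
gives `T₀ = A ∪ B` with `A, B` continua `≠ T₀`, by symmetry `y ∈ A`. (A and B are subsets of `T₀`, hence `≠ K₀`.)
If `B ∩ B₀ ≠ ∅`: `B₁ = B ∪ B₀` is a continuum and `A ∪ B₁ = K₀`. If `B₁ ≠ K₀` then `hmin A B₁` gives `A = T₀`: contradiction. If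
`B₁ = K₀` then `y ∈ B` (as `y ∉ B₀`), and `hmin B B₀` gives `B = T₀`: contradiction.
If `B ∩ B₀ = ∅`: then `A ∩ B₀ ≠ ∅` and `A₂ = A ∪ B₀` is a continuum. If `A₂ = K₀` then `hmin A B₀` gives `A = T₀`: contradiction. If
`A₂ ≠ K₀` then `hstar T₀ A₂` (`T₀ ∪ A₂ = K₀`, `y ∈ T₀`, `y ∈ A₂`): contradiction.
`part_a`. If `T₀ ∩ B ≠ ∅` then `W = T₀ ∪ B` is a continuum containing `y`. If `W = K₀`: `hT B`. Otherwise `hstar A W`.
(For unions: `IsConnected.union` with a common point, `IsCompact.union`.)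
-/

namespace CArc

open Set Topology

theorem cmin_union {Y : Type} [TopologicalSpace Y] {A B : Set Y} (hA : Cont A) (hB : Cont B)
    (h : (A ∩ B).Nonempty) : Cont (A ∪ B) :=
  ⟨hA.1.union hB.1, IsConnected.union h hA.2 hB.2⟩

theorem cmin_meet {Y : Type} [MetricSpace Y] {A B K : Set Y} (hK : Cont K) (hA : Cont A)
    (hB : Cont B) (h : A ∪ B = K) : (A ∩ B).Nonempty := by
  have h1 := isPreconnected_closed_iff.1 hK.2.isPreconnected A B hA.1.isClosed hB.1.isClosed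
    (by rw [h])
    (by
      obtain ⟨a, ha⟩ := hA.2.nonempty
      exact ⟨a, by rw [← h]; exact Or.inl ha, ha⟩)
    (by
      obtain ⟨a, ha⟩ := hB.2.nonempty
      exact ⟨a, by rw [← h]; exact Or.inr ha, ha⟩)
  obtain ⟨a, -, ha⟩ := h1
  exact ⟨a, ha⟩

theorem cmin_aux {Y : Type} [MetricSpace Y] {K₀ : Set Y} {y : Y}
    (hstar : ∀ A B : Set Y, Cont A → Cont B → A ∪ B = K₀ → A ≠ K₀ → B ≠ K₀ → y ∈ A →
      y ∈ B → False)
    {T₀ B₀ : Set Y} (hT₀ : Cont T₀) (hB₀ : Cont B₀) (hTB : T₀ ∪ B₀ = K₀) (hT₀' : T₀ ≠ K₀)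
    (hB₀' : B₀ ≠ K₀) (hy : y ∈ T₀)
    (hmin : ∀ A B : Set Y, Cont A → Cont B → A ∪ B = K₀ → A ≠ K₀ → B ≠ K₀ → y ∈ A →
      A ⊆ T₀ → A = T₀) (hyB : y ∉ B₀) (hmeet : (T₀ ∩ B₀).Nonempty)
    {A B : Set Y} (hA : Cont A) (hB : Cont B) (hAB : A ∪ B = T₀) (hA' : A ≠ T₀) (hB' : B ≠ T₀)
    (hyA : y ∈ A) : False := by
  have hAT : A ⊆ T₀ := by rw [← hAB]; exact Set.subset_union_left
  have hBT : B ⊆ T₀ := by rw [← hAB]; exact Set.subset_union_right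
  have hTK : T₀ ⊆ K₀ := by rw [← hTB]; exact Set.subset_union_left
  have hBK : B₀ ⊆ K₀ := by rw [← hTB]; exact Set.subset_union_right
  have hAK : A ≠ K₀ := fun h => hT₀' (Set.Subset.antisymm hTK (h ▸ hAT))
  have hBK' : B ≠ K₀ := fun h => hT₀' (Set.Subset.antisymm hTK (h ▸ hBT))
  by_cases hBB : (B ∩ B₀).Nonempty
  · have h1 : Cont (B ∪ B₀) := cmin_union hB hB₀ hBB
    have h2 : A ∪ (B ∪ B₀) = K₀ := by rw [← Set.union_assoc, hAB, hTB]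
    by_cases h3 : B ∪ B₀ = K₀
    · have hyB' : y ∈ B := by
        have : y ∈ B ∪ B₀ := by rw [h3]; exact hTK hy
        exact this.resolve_right hyB
      exact hB' (hmin B B₀ hB hB₀ h3 hBK' hB₀' hyB' hBT)
    · exact hA' (hmin A (B ∪ B₀) hA h1 h2 hAK h3 hyA hAT)
  · have hAB0 : (A ∩ B₀).Nonempty := by
      obtain ⟨z, hz1, hz2⟩ := hmeet
      rw [← hAB] at hz1
      rcases hz1 with h | h
      · exact ⟨z, h, hz2⟩
      · exact absurd ⟨z, h, hz2⟩ hBB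
    have h1 : Cont (A ∪ B₀) := cmin_union hA hB₀ hAB0
    by_cases h3 : A ∪ B₀ = K₀
    · exact hA' (hmin A B₀ hA hB₀ h3 hAK hB₀' hyA hAT)
    · refine hstar T₀ (A ∪ B₀) hT₀ h1 ?_ hT₀' h3 hy (Or.inl hyA)
      rw [← Set.union_assoc, Set.union_eq_self_of_subset_right hAT, hTB]

theorem case_min {Y : Type} [MetricSpace Y] [CompactSpace Y] {K₀ : Set Y} (hK₀ : Cont K₀)
    (hdec : ∀ K : Set Y, Cont K → K ⊆ K₀ → K ≠ K₀ → K.Nontrivial → Decomp K) {y : Y}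
    (hstar : ∀ A B : Set Y, Cont A → Cont B → A ∪ B = K₀ → A ≠ K₀ → B ≠ K₀ → y ∈ A →
      y ∈ B → False)
    {T₀ B₀ : Set Y} (hT₀ : Cont T₀) (hB₀ : Cont B₀) (hTB : T₀ ∪ B₀ = K₀) (hT₀' : T₀ ≠ K₀)
    (hB₀' : B₀ ≠ K₀) (hy : y ∈ T₀)
    (hmin : ∀ A B : Set Y, Cont A → Cont B → A ∪ B = K₀ → A ≠ K₀ → B ≠ K₀ → y ∈ A →
      A ⊆ T₀ → A = T₀) : False := by
  have hyB : y ∉ B₀ := fun h => hstar T₀ B₀ hT₀ hB₀ hTB hT₀' hB₀' hy h
  have hmeet : (T₀ ∩ B₀).Nonempty := cmin_meet hK₀ hT₀ hB₀ hTB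
  have hTK : T₀ ⊆ K₀ := by rw [← hTB]; exact Set.subset_union_left
  have hnt : T₀.Nontrivial := by
    obtain ⟨z, hz1, hz2⟩ := hmeet
    exact ⟨y, hy, z, hz1, fun h => hyB (h ▸ hz2)⟩
  obtain ⟨A, B, hA, hB, hAB, hA', hB'⟩ := hdec T₀ hT₀ hTK hT₀' hnt
  have hy' : y ∈ A ∪ B := by rw [hAB]; exact hy
  rcases hy' with h | h
  · exact cmin_aux hstar hT₀ hB₀ hTB hT₀' hB₀' hy hmin hyB hmeet hA hB hAB hA' hB' h
  · exact cmin_aux hstar hT₀ hB₀ hTB hT₀' hB₀' hy hmin hyB hmeet hB hA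
      (by rw [Set.union_comm, hAB]) hB' hA' h

theorem part_a {Y : Type} [MetricSpace Y] [CompactSpace Y] {K₀ : Set Y} {y : Y}
    (hstar : ∀ A B : Set Y, Cont A → Cont B → A ∪ B = K₀ → A ≠ K₀ → B ≠ K₀ → y ∈ A →
      y ∈ B → False)
    {A B T₀ : Set Y} (hA : Cont A) (hB : Cont B) (hAB : A ∪ B = K₀) (hA' : A ≠ K₀)
    (hB' : B ≠ K₀) (hT₀ : Cont T₀) (hT₀A : T₀ ⊆ A) (hyT : y ∈ T₀)
    (hT : ∀ B' : Set Y, Cont B' → T₀ ∪ B' = K₀ → B' ≠ K₀ → False) : Disjoint T₀ B := by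
  rw [Set.disjoint_iff_inter_eq_empty, ← Set.not_nonempty_iff_eq_empty]
  intro hne
  by_cases h3 : T₀ ∪ B = K₀
  · exact hT B hB h3 hB'
  · refine hstar A (T₀ ∪ B) hA (cmin_union hT₀ hB hne) ?_ hA' h3 (hT₀A hyT) (Or.inl hyT)
    rw [← Set.union_assoc, Set.union_eq_self_of_subset_right hT₀A, hAB]

end CArc
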