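import Mathlib

set_option autoImplicit false

/-!
# Confluent images of arc-like continua: definitions
-/

namespace CArc

open Set Topology

/-- A (nonempty) subcontinuum: a compact connected set. -/
def Cont {Y : Type} [TopologicalSpace Y] (K : Set Y) : Prop :=
  IsCompact K ∧ IsConnected K

/-- The map `s` is a continuous section of the set `N` over the set `K`. -/
def Sec {Y : Type} [TopologicalSpace Y] (N : Set (Y × ℝ)) (K : Set Y) (s : Y → ℝ) : Prop :=
  Continuous s ∧ ∀ y ∈ K, (y, s y) ∈ N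

/-- The vertical segment between the heights `a` and `b` over `y` lies in `N`. -/
def Seg {Y : Type} (N : Set (Y × ℝ)) (y : Y) (a b : ℝ) : Prop :=
  ∀ t ∈ Set.uIcc a b, (y, t) ∈ N

/-- There is a section over `K` through the point `x`. -/
def Thr {X Y : Type} [TopologicalSpace Y] (N : Set (Y × ℝ)) (f : X → Y) (ψ : X → ℝ)
    (K : Set Y) (x : X) : Prop :=
  ∃ s : Y → ℝ, Sec N K s ∧ Seg N (f x) (s (f x)) (ψ x)

/-- All points over `K` have a section over `K` through them. -/
def EP {X Y : Type} [TopologicalSpace Y] (N : Set (Y × ℝ)) (f : X → Y) (ψ : X → ℝ)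
    (K : Set Y) : Prop :=
  ∀ x : X, f x ∈ K → Thr N f ψ K x

/-- Confluence, as in the frozen statement. -/
def Confl {X Y : Type} [TopologicalSpace X] [TopologicalSpace Y] (f : X → Y) : Prop :=
  ∀ K : Set Y, IsCompact K → IsConnected K →
    ∀ x ∈ f ⁻¹' K, f '' connectedComponentIn (f ⁻¹' K) x = K

/-- The property `H`: a continuum inside `A ∪ B` which leaves both `B` and `A`
contains `A ∩ B`. -/
def HH (Y : Type) [TopologicalSpace Y] : Prop :=
  ∀ A B H : Set Y, Cont A → Cont B → Cont H → H ⊆ A ∪ B →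
    (H ∩ (A \ B)).Nonempty → (H ∩ (B \ A)).Nonempty → A ∩ B ⊆ H

/-- A set is the union of two proper subcontinua. -/
def Decomp {Y : Type} [TopologicalSpace Y] (K : Set Y) : Prop :=
  ∃ A B : Set Y, Cont A ∧ Cont B ∧ A ∪ B = K ∧ A ≠ K ∧ B ≠ K

/-- Arc-like, as in the frozen statement. -/
def ArcLike (X : Type) [PseudoMetricSpace X] : Prop :=
  ∀ ε : ℝ, 0 < ε → ∃ g : X → ℝ, Continuous g ∧ Set.range g ⊆ Set.Icc 0 1 ∧
    ∀ t : ℝ, Metric.diam (g ⁻¹' {t}) < ε

end CArc
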