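import Pool.Agent.Helper78.CA.MinF
import Pool.Agent.Helper78.CA.CMin
import Pool.Agent.Helper78.CA.CCh
import Pool.Agent.Helper78.CA.Two

set_option autoImplicit false

/-!
Suppose not; take `K₀` from `exists_minimal_failing` and `x₀` with `f x₀ ∈ K₀`, `¬ Thr N f ψ K₀ x₀`; `y = f x₀`.
`hstar`: if `K₀ = A ∪ B`, both `≠ K₀`, `y ∈ A ∩ B`, sections over `A` and over `B` through `x₀` (minimality) are glued by
`glue_two` with `y₀ = y₁ = y`: contradiction. Let `𝒜 = {A | Cont A ∧ A ≠ K₀ ∧ y ∈ A ∧ A ⊆ K₀ ∧ ∃ B, Cont B ∧ A ∪ B = K₀ ∧ B ≠ K₀}`, nonempty by `hdec K₀`.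
If every nonempty chain in `𝒜` has a lower bound in `𝒜`, Zorn (`zorn_superset_nonempty`) gives a minimal `T₀`, and `case_min` is violated. Otherwise
there is a nonempty chain `𝒞 ⊆ 𝒜` without lower bound in `𝒜`; so `⋂₀ 𝒞 ∉ 𝒜`, which (with `cont_sInter`) is the hypothesis `hT` of `case_chain`.
-/

namespace CArc

open Set Topology

theorem ep_all {X Y : Type} [MetricSpace X] [CompactSpace X] [MetricSpace Y]
    [CompactSpace Y] {f : X → Y} (hf : Continuous f) (hconf : Confl f) (hH : HH Y)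
    (hdec : ∀ K : Set Y, Cont K → K ≠ univ → K.Nontrivial → Decomp K)
    {N : Set (Y × ℝ)} (hN : IsOpen N) {ψ : X → ℝ} (hψ : Continuous ψ)
    (hψN : ∀ x, (f x, ψ x) ∈ N) {K : Set Y} (hK : Cont K) (hKu : K ≠ univ) :
    EP N f ψ K := by
  by_contra hbad
  obtain ⟨K₀, hK₀, hK₀u, hK₀bad, hK₀nt, hmin⟩ :=
    exists_minimal_failing hf hN hψ hψN hK hKu hbad
  have hex : ∃ x₀ : X, f x₀ ∈ K₀ ∧ ¬ Thr N f ψ K₀ x₀ := by
    by_contra hno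
    apply hK₀bad
    intro x hx
    by_contra hx'
    exact hno ⟨x, hx, hx'⟩
  obtain ⟨x₀, hx₀, hthr⟩ := hex
  have hstar : ∀ A B : Set Y, Cont A → Cont B → A ∪ B = K₀ → A ≠ K₀ → B ≠ K₀ → f x₀ ∈ A →
      f x₀ ∈ B → False := by
    intro A B hA hB hAB hA' hB' hyA hyB
    obtain ⟨sA, hsA, hgA⟩ := hmin A hA (hAB ▸ subset_union_left) hA' x₀ hyA
    obtain ⟨sB, hsB, hgB⟩ := hmin B hB (hAB ▸ subset_union_right) hB' x₀ hyB
    obtain ⟨s, hs, hg⟩ := glue_two hN hH hA hB hsA hsB hyA hyB (seg_trans hgA (seg_symm hgB))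
      hyA (Or.inr rfl)
    rw [hAB] at hs
    exact hthr ⟨s, hs, seg_trans (seg_symm hg) hgA⟩
  have hAne : ∃ A : Set Y, Cont A ∧ A ≠ K₀ ∧ f x₀ ∈ A ∧ A ⊆ K₀ ∧
      ∃ B : Set Y, Cont B ∧ A ∪ B = K₀ ∧ B ≠ K₀ := by
    obtain ⟨A, B, hA, hB, hAB, hA', hB'⟩ := hdec K₀ hK₀ hK₀u hK₀nt
    have hx : f x₀ ∈ A ∪ B := by rw [hAB]; exact hx₀
    rcases hx with hx | hx
    · exact ⟨A, hA, hA', hx, hAB ▸ subset_union_left, B, hB, hAB, hB'⟩
    · exact ⟨B, hB, hB', hx, hAB ▸ subset_union_right, A, hA, by rw [union_comm]; exact hAB, hA'⟩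
  let 𝒜 : Set (Set Y) := {A : Set Y | Cont A ∧ A ≠ K₀ ∧ f x₀ ∈ A ∧ A ⊆ K₀ ∧
      ∃ B : Set Y, Cont B ∧ A ∪ B = K₀ ∧ B ≠ K₀}
  by_cases hc : ∀ c ⊆ 𝒜, IsChain (· ⊆ ·) c → c.Nonempty → ∃ lb ∈ 𝒜, ∀ s ∈ c, lb ⊆ s
  · obtain ⟨A₁, hA₁⟩ := hAne
    obtain ⟨T₀, -, hT₀⟩ := zorn_superset_nonempty 𝒜 hc A₁ hA₁
    obtain ⟨hTc, hTne, hyT, hTK, B₀, hB₀, hTB, hB₀'⟩ := hT₀.prop
    refine case_min hK₀ ?_ hstar hTc hB₀ hTB hTne hB₀' hyT ?_
    · intro K₁ hK₁ hsub hne hnt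
      apply hdec K₁ hK₁ _ hnt
      intro h1
      apply hK₀u
      apply eq_univ_of_univ_subset
      rw [← h1]
      exact hsub
    · intro A B hA hB hAB hA' hB' hyA hAT
      have hAmem : A ∈ 𝒜 := ⟨hA, hA', hyA, hAB ▸ subset_union_left, B, hB, hAB, hB'⟩
      exact Subset.antisymm hAT (hT₀.le_of_le hAmem hAT)
  · push Not at hc
    obtain ⟨𝒞, h𝒞A, hch, hne, hno⟩ := hc
    refine case_chain hf hconf hH hN hψ hK₀ hmin hthr hstar hne hch (fun A hA => h𝒞A hA) ?_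
    intro B' hB' hTB hBne
    obtain ⟨A, hA⟩ := hne
    obtain ⟨-, hAne', -, hAK, -⟩ := h𝒞A hA
    have hmem : (⋂₀ 𝒞) ∈ 𝒜 := by
      refine ⟨cont_sInter ⟨A, hA⟩ hch (fun A' hA' => (h𝒞A hA').1), ?_, ?_, ?_, B', hB', hTB, hBne⟩
      · intro h1
        apply hAne'
        apply Subset.antisymm hAK
        rw [← h1]
        exact sInter_subset_of_mem hA
      · exact fun A' hA' => (h𝒞A hA').2.2.1
      · exact (sInter_subset_of_mem hA).trans hAK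
    obtain ⟨s, hs, hns⟩ := hno _ hmem
    exact hns (sInter_subset_of_mem hs)

end CArc
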