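import Pool.Agent.Helper78.CA.Low
import Pool.Agent.Helper78.CA.Scale

set_option autoImplicit false

/-!
Final step. Let `ε > 0`, `ψ` from `exists_scale` for `ε / 4`. `ψ` is bounded. Let `β = sInf {b | ∀ y, ∃ x, f x = y ∧ ψ x ≤ b}`. Then `hlow` holds
with `b = β + 1/8`, and there is `y₀` with `ψ x > β - 1/4` for all `x` over `y₀`. The compact set `f '' {x | ψ x ≤ β - 1/2}` misses `y₀`, so there is `R > 0`,
`R < ε / 8`, such that `dist (f x) y₀ < 2 R → ψ x > β - 1/2`. Let `N = NN f ψ R` (open, contains all `(f x, ψ x)`), `V = {y | R / 2 ≤ dist y y₀}` (closed,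
`y₀ ∉ V`, so continua in `V` are `≠ univ`). `low_section_closed` gives `h`, a section over `V` with `h < β + 1/8` on `V`. For `v ∈ V` with
`dist v y₀ ≤ R`: `h v > β - 3/2`. Put `k y = if dist y y₀ ≤ R then max (β - 3/2) (min (h y) (β + 1/8)) else h y` (continuous: `Continuous.if_le`).
For every `y` there is `x` with `dist (f x) y < R` and `|ψ x - k y| ≤ 3/2` (for `y ∈ V` from `NN`; otherwise `x` over `y₀` with
`β - 1/4 < ψ x ≤ β` ... for instance `ψ x < β + 1/8`). So `k y = k y'` implies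
`dist y y' < 2 R + ε / 4`, and the diameter of every fibre is `≤ ε / 2 < ε`. Rescale `k` to `[0,1]` (`Y` compact, `k` bounded).
-/

namespace CArc

open Set Topology

/-- The end neighbourhood. -/
def NN {X Y : Type} [MetricSpace Y] (f : X → Y) (ψ : X → ℝ) (η : ℝ) : Set (Y × ℝ) :=
  {q | ∃ x : X, dist (f x) q.1 < η ∧ |ψ x - q.2| < 1}

private theorem fin_open {X Y : Type} [MetricSpace Y] (f : X → Y) (ψ : X → ℝ) (η : ℝ) :
    IsOpen (NN f ψ η) := by
  have h : NN f ψ η = ⋃ x : X, {q : Y × ℝ | dist (f x) q.1 < η ∧ |ψ x - q.2| < 1} := by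
    ext q
    simp [NN]
  rw [h]
  refine isOpen_iUnion fun x => ?_
  have h1 : IsOpen {q : Y × ℝ | dist (f x) q.1 < η} :=
    isOpen_lt (continuous_const.dist continuous_fst) continuous_const
  have h2 : IsOpen {q : Y × ℝ | |ψ x - q.2| < 1} :=
    isOpen_lt ((continuous_const.sub continuous_snd).abs) continuous_const
  exact h1.inter h2

/-- rescaling a map with small fibres to the unit interval -/
private theorem fin_rescale {Y : Type} [MetricSpace Y] [CompactSpace Y] {ε : ℝ} {k : Y → ℝ}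
    (hk : Continuous k) (hd : ∀ t : ℝ, Metric.diam (k ⁻¹' {t}) < ε) :
    ∃ g : Y → ℝ, Continuous g ∧ Set.range g ⊆ Set.Icc 0 1 ∧
      ∀ t : ℝ, Metric.diam (g ⁻¹' {t}) < ε := by
  have hc : IsCompact (Set.range k) := isCompact_range hk
  obtain ⟨M, hM⟩ := hc.bddAbove
  obtain ⟨m, hm⟩ := hc.bddBelow
  have hM' : ∀ y, k y ≤ M := fun y => hM ⟨y, rfl⟩
  have hm' : ∀ y, m ≤ k y := fun y => hm ⟨y, rfl⟩
  set L : ℝ := max (M - m) 0 + 1 with hL
  have hLpos : 0 < L := by
    have : 0 ≤ max (M - m) 0 := le_max_right _ _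
    linarith
  refine ⟨fun y => (k y - m) / L, by fun_prop, ?_, ?_⟩
  · rintro _ ⟨y, rfl⟩
    refine ⟨div_nonneg (sub_nonneg.2 (hm' y)) hLpos.le, ?_⟩
    rw [div_le_one hLpos]
    have h1 : M - m ≤ max (M - m) 0 := le_max_left _ _
    have h2 := hM' y
    linarith
  · intro t
    have : (fun y => (k y - m) / L) ⁻¹' {t} = k ⁻¹' {t * L + m} := by
      ext y
      simp only [Set.mem_preimage, Set.mem_singleton_iff]
      rw [div_eq_iff hLpos.ne']
      constructor <;> intro h <;> linarith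
    rw [this]
    exact hd _

theorem arclike_of_ep {X Y : Type} [MetricSpace X] [CompactSpace X] [MetricSpace Y]
    [CompactSpace Y] [Nonempty X] (hX : ArcLike X) {f : X → Y} (hf : Continuous f)
    (hsurj : Function.Surjective f)
    (hEP : ∀ N : Set (Y × ℝ), IsOpen N → ∀ ψ : X → ℝ, Continuous ψ → (∀ x, (f x, ψ x) ∈ N) →
      ∀ K : Set Y, Cont K → K ≠ univ → EP N f ψ K) : ArcLike Y := by
  intro ε hε
  obtain ⟨ψ, hψ, hsc⟩ := exists_scale hX hf (δ := ε / 4) (by positivity)
  -- the critical height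
  have hcψ : IsCompact (Set.range ψ) := isCompact_range hψ
  obtain ⟨M, hM⟩ := hcψ.bddAbove
  obtain ⟨m, hm⟩ := hcψ.bddBelow
  have hM' : ∀ x, ψ x ≤ M := fun x => hM ⟨x, rfl⟩
  have hm' : ∀ x, m ≤ ψ x := fun x => hm ⟨x, rfl⟩
  obtain ⟨x₁⟩ := (inferInstance : Nonempty X)
  set B : Set ℝ := {b | ∀ y, ∃ x, f x = y ∧ ψ x ≤ b} with hB
  have hBne : B.Nonempty := ⟨M, fun y => by
    obtain ⟨x, hx⟩ := hsurj y
    exact ⟨x, hx, hM' x⟩⟩
  have hBbd : BddBelow B := ⟨m, fun b hb => by
    obtain ⟨x, -, hx⟩ := hb (f x₁)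
    exact (hm' x).trans hx⟩
  set β := sInf B with hβ
  obtain ⟨b₁, hb₁, hb₁'⟩ : ∃ b ∈ B, b < β + 1 / 8 :=
    exists_lt_of_csInf_lt hBne (by rw [← hβ]; linarith)
  have hlow : ∀ y : Y, ∃ x : X, f x = y ∧ ψ x < β + 1 / 8 := by
    intro y
    obtain ⟨x, hx, hx'⟩ := hb₁ y
    exact ⟨x, hx, lt_of_le_of_lt hx' hb₁'⟩
  obtain ⟨y₀, hy₀⟩ : ∃ y₀, ∀ x, f x = y₀ → β - 1 / 4 < ψ x := by
    by_contra hcon
    push Not at hcon
    have : β - 1 / 4 ∈ B := fun y => by
      obtain ⟨x, hx, hx'⟩ := hcon y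
      exact ⟨x, hx, hx'⟩
    have h2 : β ≤ β - 1 / 4 := csInf_le hBbd this
    linarith
  -- the radius
  obtain ⟨ρ, hρ, hρ'⟩ : ∃ ρ > 0, ∀ x, dist (f x) y₀ < ρ → β - 1 / 2 < ψ x := by
    have hcl : IsClosed (f '' {x | ψ x ≤ β - 1 / 2}) :=
      ((isClosed_le hψ continuous_const).isCompact.image hf).isClosed
    have hn : y₀ ∈ (f '' {x | ψ x ≤ β - 1 / 2})ᶜ := by
      rintro ⟨x, hx, hx'⟩
      have h1 := hy₀ x hx'
      have h2 : ψ x ≤ β - 1 / 2 := hx
      linarith
    obtain ⟨ρ, hρ, hsub⟩ := Metric.isOpen_iff.1 hcl.isOpen_compl y₀ hn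
    refine ⟨ρ, hρ, fun x hx => ?_⟩
    by_contra hcon
    push Not at hcon
    exact hsub (Metric.mem_ball.2 hx) ⟨x, hcon, rfl⟩
  set R : ℝ := min (ρ / 2) (ε / 16) with hR
  have hR0 : 0 < R := lt_min (by positivity) (by positivity)
  have hR1 : 2 * R ≤ ρ := by
    have := min_le_left (ρ / 2) (ε / 16)
    rw [← hR] at this
    linarith
  have hR2 : R ≤ ε / 16 := min_le_right _ _
  -- the low section
  set V : Set Y := {y | R / 2 ≤ dist y y₀} with hV
  have hVcl : IsClosed V := isClosed_le continuous_const (by fun_prop)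
  obtain ⟨h, ⟨hhc, hhN⟩, hhlt⟩ := low_section_closed (fin_open f ψ R) hlow hVcl (by
    intro K hK hKV
    refine hEP _ (fin_open f ψ R) ψ hψ (fun x => ⟨x, ?_, ?_⟩) K hK ?_
    · simpa using hR0
    · simp
    · rintro rfl
      have : y₀ ∈ V := hKV (Set.mem_univ _)
      have h2 : R / 2 ≤ dist y₀ y₀ := this
      rw [dist_self] at h2
      linarith)
  have hhV : ∀ v ∈ V, ∃ x, dist (f x) v < R ∧ |ψ x - h v| < 1 := fun v hv => hhN v hv
  have hhlow : ∀ v ∈ V, dist v y₀ ≤ R → β - 3 / 2 < h v := by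
    intro v hv hvR
    obtain ⟨x, hx1, hx2⟩ := hhV v hv
    have h1 : dist (f x) y₀ < ρ := by
      have := dist_triangle (f x) v y₀
      linarith
    have h2 := hρ' x h1
    have h3 := abs_lt.1 hx2
    linarith [h3.2]
  -- the map `k`
  set k : Y → ℝ := fun y => if dist y y₀ ≤ R then max (β - 3 / 2) (min (h y) (β + 1 / 8)) else h y
    with hk
  have hkV : ∀ y ∈ V, k y = h y := by
    intro y hy
    rw [hk]
    simp only
    split_ifs with hc
    · have h1 := hhlow y hy hc
      have h2 := hhlt y hy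
      rw [min_eq_left h2.le, max_eq_right h1.le]
    · rfl
  have hkc : Continuous k := by
    rw [hk]
    refine Continuous.if_le (by fun_prop) hhc (by fun_prop) continuous_const ?_
    intro y hy
    have hyV : y ∈ V := by
      change R / 2 ≤ dist y y₀
      rw [hy]
      linarith
    have h1 := hhlow y hyV hy.le
    have h2 := hhlt y hyV
    rw [min_eq_left h2.le, max_eq_right h1.le]
  have hkey : ∀ y, (∃ x, dist (f x) y < R ∧ |ψ x - k y| < 1) ∨
      (dist y y₀ < R / 2 ∧ ∃ x, dist (f x) y < R ∧ |ψ x - k y| < 2) := by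
    intro y
    by_cases hy : y ∈ V
    · left
      rw [hkV y hy]
      exact hhV y hy
    · right
      have hy' : dist y y₀ < R / 2 := by
        change ¬ (R / 2 ≤ dist y y₀) at hy
        exact not_le.1 hy
      refine ⟨hy', ?_⟩
      obtain ⟨x, hx, hx'⟩ := hlow y₀
      have hx2 := hy₀ x hx
      refine ⟨x, ?_, ?_⟩
      · rw [hx, dist_comm]
        linarith
      · have h1 : k y = max (β - 3 / 2) (min (h y) (β + 1 / 8)) := by
          rw [hk]
          simp only
          rw [if_pos (by linarith)]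
        have h2 : β - 3 / 2 ≤ k y := by rw [h1]; exact le_max_left _ _
        have h3 : k y ≤ β + 1 / 8 := by
          rw [h1]
          exact max_le (by linarith) (min_le_right _ _)
        rw [abs_lt]
        constructor <;> linarith
  have hpair : ∀ y y', k y = k y' → dist y y' ≤ ε / 2 := by
    intro y y' hyy
    have main : ∀ x x', dist (f x) y < R → dist (f x') y' < R → |ψ x - ψ x'| ≤ 3 →
        dist y y' ≤ ε / 2 := by
      intro x x' h1 h2 h3
      have h4 := hsc x x' h3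
      have h5 := dist_triangle4 y (f x) (f x') y'
      rw [dist_comm y (f x)] at h5
      linarith
    rcases hkey y with ⟨x, hx1, hx2⟩ | ⟨hy, x, hx1, hx2⟩ <;>
      rcases hkey y' with ⟨x', hx1', hx2'⟩ | ⟨hy', x', hx1', hx2'⟩
    · refine main x x' hx1 hx1' ?_
      rw [abs_lt] at hx2 hx2'
      rw [abs_le]
      constructor <;> linarith [hx2.1, hx2.2, hx2'.1, hx2'.2]
    · refine main x x' hx1 hx1' ?_
      rw [abs_lt] at hx2 hx2'
      rw [abs_le]
      constructor <;> linarith [hx2.1, hx2.2, hx2'.1, hx2'.2]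
    · refine main x x' hx1 hx1' ?_
      rw [abs_lt] at hx2 hx2'
      rw [abs_le]
      constructor <;> linarith [hx2.1, hx2.2, hx2'.1, hx2'.2]
    · have h5 := dist_triangle y y₀ y'
      rw [dist_comm y₀ y'] at h5
      linarith
  refine fin_rescale hkc fun t => ?_
  refine lt_of_le_of_lt (Metric.diam_le_of_forall_dist_le (C := ε / 2) (by positivity) ?_)
    (by linarith)
  intro y hy y' hy'
  exact hpair y y' ((Set.mem_singleton_iff.1 hy).trans (Set.mem_singleton_iff.1 hy').symm)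

end CArc
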