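import Pool.Agent.Helper78.CA.Sep
import Pool.Agent.Helper78.CA.Chain
import Pool.Agent.Helper78.CA.CMin

set_option autoImplicit false

/-!
Let `T = ⋂₀ 𝒞`, a continuum (`cont_sInter`) containing `y`; `T` and `B` are disjoint by `part_a`. Claim: no continuum `H ⊆ Z = K₀ \ E`
meets both `T` and `B`: otherwise `W = T ∪ (H ∪ B)` is a continuum containing `y`. If `W ≠ K₀` then `hstar A W` (`A ∪ W = K₀`): contradiction.
If `W = K₀` apply `hT (H ∪ B)`: a point `e ∈ E ∩ T` is not in `H` and not in `B`, so `H ∪ B ≠ K₀` (`e ∈ A ⊆ K₀`).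
`sep` for `Z`, `P = T \ E`, `Q = B \ E` gives closed disjoint `Z₁ ∪ Z₂ = Z`, `T \ E ⊆ Z₁`, `B \ E ⊆ Z₂`. So `T` is
contained in the open set `(Z₂ ∪ B)ᶜ`, and by `chain_subset_open` some `A₁ ∈ 𝒞` is contained in it; let `A'` be the smaller of `A₁` and `A`.
A continuum `H ⊆ K₀` missing `E` and meeting `A'` and `B` lies in `Z = Z₁ ∪ Z₂`, meets `Z₂` (in `B \ E`) and has a point of `A'`, not in `Z₂`, so
in `Z₁`: this contradicts connectedness.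
-/

namespace CArc

open Set Topology

theorem part_b {Y : Type} [MetricSpace Y] [CompactSpace Y] {K₀ : Set Y} (hK₀ : Cont K₀) {y : Y}
    (hstar : ∀ A B : Set Y, Cont A → Cont B → A ∪ B = K₀ → A ≠ K₀ → B ≠ K₀ → y ∈ A →
      y ∈ B → False)
    {𝒞 : Set (Set Y)} (hch : IsChain (· ⊆ ·) 𝒞)
    (h𝒞 : ∀ A ∈ 𝒞, Cont A ∧ A ≠ K₀ ∧ y ∈ A ∧ A ⊆ K₀)
    (hT : ∀ B' : Set Y, Cont B' → (⋂₀ 𝒞) ∪ B' = K₀ → B' ≠ K₀ → False)
    {A B : Set Y} (hA : A ∈ 𝒞) (hB : Cont B) (hAB : A ∪ B = K₀) (hB' : B ≠ K₀)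
    {E : Set Y} (hE : IsOpen E) (hET : (E ∩ ⋂₀ 𝒞).Nonempty) :
    ∃ A' ∈ 𝒞, A' ⊆ A ∧ Disjoint A' B ∧
      ∀ H : Set Y, Cont H → H ⊆ K₀ → (H ∩ A').Nonempty → (H ∩ B).Nonempty →
        (H ∩ E).Nonempty := by
  classical
  have hne : 𝒞.Nonempty := ⟨A, hA⟩
  have hTc : Cont (⋂₀ 𝒞) := cont_sInter hne hch (fun S hS => (h𝒞 S hS).1)
  have hyT : y ∈ ⋂₀ 𝒞 := fun S hS => (h𝒞 S hS).2.2.1
  have hTA : ⋂₀ 𝒞 ⊆ A := sInter_subset_of_mem hA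
  obtain ⟨hAc, hA', hyA, hAK⟩ := h𝒞 A hA
  have hdisj : Disjoint (⋂₀ 𝒞) B := part_a hstar hAc hB hAB hA' hB' hTc hTA hyT hT
  have hBK : B ⊆ K₀ := by rw [← hAB]; exact subset_union_right
  obtain ⟨e, heE, heT⟩ := hET
  have claim : ∀ H : Set Y, Cont H → H ⊆ K₀ \ E → (H ∩ ⋂₀ 𝒞).Nonempty →
      (H ∩ B).Nonempty → False := by
    intro H hH hHZ hHT hHB
    have hHBc : Cont (H ∪ B) := ⟨hH.1.union hB.1, hH.2.union hHB hB.2⟩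
    have hW : Cont ((⋂₀ 𝒞) ∪ (H ∪ B)) := by
      refine ⟨hTc.1.union hHBc.1, IsConnected.union ?_ hTc.2 hHBc.2⟩
      obtain ⟨z, hz1, hz2⟩ := hHT
      exact ⟨z, hz2, Or.inl hz1⟩
    by_cases hWK : (⋂₀ 𝒞) ∪ (H ∪ B) = K₀
    · refine hT (H ∪ B) hHBc hWK ?_
      intro h
      have he : e ∈ H ∪ B := by rw [h]; exact hAK (hTA heT)
      rcases he with he | he
      · exact (hHZ he).2 heE
      · exact disjoint_left.1 hdisj heT he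
    · refine hstar A ((⋂₀ 𝒞) ∪ (H ∪ B)) hAc hW ?_ hA' hWK hyA (Or.inl hyT)
      apply Subset.antisymm
      · refine union_subset hAK (union_subset (hTA.trans hAK) (union_subset ?_ hBK))
        exact fun z hz => (hHZ hz).1
      · rw [← hAB]
        exact union_subset_union_right A (fun z hz => Or.inr (Or.inr hz))
  have hZc : IsClosed (K₀ \ E) := hK₀.1.isClosed.inter hE.isClosed_compl
  obtain ⟨Z₁, Z₂, h1, h2, hZ, hd, hP, hQ⟩ := sep (Z := K₀ \ E) (P := (⋂₀ 𝒞) \ E) (Q := B \ E)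
    hZc (hTc.1.isClosed.inter hE.isClosed_compl) (hB.1.isClosed.inter hE.isClosed_compl)
    (fun z hz => ⟨hAK (hTA hz.1), hz.2⟩) (fun z hz => ⟨hBK hz.1, hz.2⟩)
    (fun H hH hHZ hHP hHQ => claim H hH hHZ
      (hHP.mono (fun z hz => ⟨hz.1, hz.2.1⟩)) (hHQ.mono (fun z hz => ⟨hz.1, hz.2.1⟩)))
  have hU : IsOpen ((Z₂ ∪ B)ᶜ) := (h2.union hB.1.isClosed).isOpen_compl
  have hTU : ⋂₀ 𝒞 ⊆ (Z₂ ∪ B)ᶜ := by
    intro t ht hc
    rcases hc with hc | hc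
    · have htZ : t ∈ K₀ \ E := by rw [← hZ]; exact Or.inr hc
      exact disjoint_left.1 hd (hP ⟨ht, htZ.2⟩) hc
    · exact disjoint_left.1 hdisj ht hc
  obtain ⟨A₁, hA₁, hA₁U⟩ := chain_subset_open hne hch (fun S hS => (h𝒞 S hS).1.1.isClosed) hU hTU
  obtain ⟨A', hA'mem, hA'A, hA'U⟩ : ∃ A' ∈ 𝒞, A' ⊆ A ∧ A' ⊆ (Z₂ ∪ B)ᶜ := by
    rcases hch.total hA₁ hA with h | h
    · exact ⟨A₁, hA₁, h, hA₁U⟩
    · exact ⟨A, hA, Subset.rfl, h.trans hA₁U⟩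
  refine ⟨A', hA'mem, hA'A, disjoint_left.2 (fun z hz hzB => hA'U hz (Or.inr hzB)), ?_⟩
  intro H hH hHK hHA hHB
  by_contra hHE
  rw [not_nonempty_iff_eq_empty] at hHE
  have hHZ : H ⊆ Z₁ ∪ Z₂ := by
    rw [hZ]
    intro z hz
    refine ⟨hHK hz, fun hzE => ?_⟩
    have : z ∈ H ∩ E := ⟨hz, hzE⟩
    rw [hHE] at this
    exact this
  have hn1 : (H ∩ Z₁).Nonempty := by
    obtain ⟨a, haH, haA⟩ := hHA
    refine ⟨a, haH, ?_⟩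
    rcases hHZ haH with h | h
    · exact h
    · exact absurd (Or.inl h) (hA'U haA)
  have hn2 : (H ∩ Z₂).Nonempty := by
    obtain ⟨b, hbH, hbB⟩ := hHB
    refine ⟨b, hbH, hQ ⟨hbB, fun hbE => ?_⟩⟩
    have : b ∈ H ∩ E := ⟨hbH, hbE⟩
    rw [hHE] at this
    exact this
  obtain ⟨z, -, hz1, hz2⟩ := isPreconnected_closed_iff.1 hH.2.isPreconnected Z₁ Z₂ h1 h2 hHZ hn1 hn2
  exact disjoint_left.1 hd hz1 hz2

end CArc
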