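import Pool.Agent.Helper78.CA.Ring
import Pool.Agent.Helper78.CA.PB

set_option autoImplicit false

/-!
`good_of_thr`: the open set `{y | (y, s y) ∈ N}` contains `⋂₀ 𝒞`, hence some `A₁ ∈ 𝒞` (`chain_subset_open`); take `τ = s`.
`good_step`: let `A_s ∈ 𝒞` be the witness of `Good s`. By `chain_subset_open` there is `A₁ ∈ 𝒞` over which `s` and `s'` are both
sections (`⋂₀ 𝒞 ⊆ {(y, s y) ∈ N} ∩ {(y, s' y) ∈ N}`). Witness for `s'`: `A₁`. Let `A ∈ 𝒞`, `A ⊆ A₁`. Apply `part_b` with `y = f x₀`, `A`,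
`B = par A`, `E = {y | Seg N y (s y) (s' y)} ∋ w`: get `A' ∈ 𝒞`, `A' ⊆ A`, disjoint from `par A`, such that every continuum `H ⊆ K₀` meeting `A'`
and `par A` meets `E`. Let `A''` be the smaller of `A'` and `A_s` and `τ` the section over `A''` given by `Good s`. Put `R = A ∩ par A''`,
`P = A'' ∩ par A''`, `Q = A ∩ par A`. Then `P ⊆ R`; `Q ⊆ R` (a point of `Q` is in `K₀ = A'' ∪ par A''` and not in `A''`, since `A''` is disjoint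
from `par A`); `P` and `Q` are disjoint; a continuum `H ⊆ R` meeting `P` and `Q` meets `E`. `glue_ring` (with `s₁ = s`, `s₂ = s'`) gives a section `ρ` over
`R`, `ρ = s` on `P`, `ρ = s'` on `Q`. `A = A'' ∪ R`, and on `A'' ∩ R = P` we have `τ = s = ρ`. So there is a continuous `τ' : Y → ℝ` with
`τ' = τ` on `A''` and `τ' = ρ` on `R` (glue on closed sets, then Tietze: for example `ContinuousOn.union_of_isClosed`, `ContinuousMap.exists_restrict_eq`;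
or `ContinuousMap.exists_extension`). `τ'` is a section over `A`, `τ' (f x₀) = τ (f x₀)`, `τ' = s'` on `Q`.
-/

namespace CArc

open Set Topology

/-- `s` is good: for all small members `A` of the chain, `s` on `A ∩ par A` extends to a
section over `A` through `x₀`. -/
def Good {X Y : Type} [TopologicalSpace Y] (N : Set (Y × ℝ)) (f : X → Y) (ψ : X → ℝ) (x₀ : X)
    (𝒞 : Set (Set Y)) (par : Set Y → Set Y) (s : Y → ℝ) : Prop :=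
  ∃ A₁ ∈ 𝒞, ∀ A ∈ 𝒞, A ⊆ A₁ → ∃ τ : Y → ℝ, Sec N A τ ∧ Seg N (f x₀) (τ (f x₀)) (ψ x₀) ∧
    ∀ y ∈ A ∩ par A, τ y = s y

theorem good_of_thr {X Y : Type} [MetricSpace Y] [CompactSpace Y] {f : X → Y}
    {N : Set (Y × ℝ)} (hN : IsOpen N) {ψ : X → ℝ} {x₀ : X}
    {𝒞 : Set (Set Y)} (hne : 𝒞.Nonempty) (hch : IsChain (· ⊆ ·) 𝒞)
    (hcont : ∀ A ∈ 𝒞, Cont A) {par : Set Y → Set Y} {s : Y → ℝ} (hs : Sec N (⋂₀ 𝒞) s)
    (hsx : Seg N (f x₀) (s (f x₀)) (ψ x₀)) : Good N f ψ x₀ 𝒞 par s := by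
  have hopen : IsOpen {y : Y | (y, s y) ∈ N} := hN.preimage (continuous_id.prodMk hs.1)
  obtain ⟨A₁, hA₁, hsub⟩ := chain_subset_open hne hch (fun A hA => (hcont A hA).1.isClosed)
    hopen hs.2
  exact ⟨A₁, hA₁, fun A _ hAA => ⟨s, ⟨hs.1, fun y hy => hsub (hAA hy)⟩, hsx, fun y _ => rfl⟩⟩

/-- Gluing two continuous functions on two closed sets and extending by Tietze. -/
private theorem good_glue {Y : Type} [MetricSpace Y] [CompactSpace Y] {A R : Set Y}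
    (hA : IsClosed A) (hR : IsClosed R) {τ ρ : Y → ℝ} (hτ : Continuous τ) (hρ : Continuous ρ)
    (h : ∀ y ∈ A ∩ R, τ y = ρ y) :
    ∃ τ' : Y → ℝ, Continuous τ' ∧ (∀ y ∈ A, τ' y = τ y) ∧ (∀ y ∈ R, τ' y = ρ y) := by
  classical
  let g : Y → ℝ := fun y => if y ∈ A then τ y else ρ y
  have gA : ∀ y ∈ A, g y = τ y := fun y hy => if_pos hy
  have gR : ∀ y ∈ R, g y = ρ y := by
    intro y hy
    by_cases hyA : y ∈ A
    · rw [gA y hyA]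
      exact h y ⟨hyA, hy⟩
    · exact if_neg hyA
  have hc : ContinuousOn g (A ∪ R) :=
    ContinuousOn.union_of_isClosed (hτ.continuousOn.congr gA) (hρ.continuousOn.congr gR) hA hR
  have hcl : IsClosed (A ∪ R) := hA.union hR
  obtain ⟨G, hG⟩ := ContinuousMap.exists_restrict_eq hcl
    (⟨(A ∪ R).domRestrict g, hc.domRestrict⟩ : C(↑(A ∪ R), ℝ))
  have hGg : ∀ y ∈ A ∪ R, G y = g y := by
    intro y hy
    exact congrArg (fun F : C(↑(A ∪ R), ℝ) => F ⟨y, hy⟩) hG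
  exact ⟨G, G.continuous, fun y hy => (hGg y (Or.inl hy)).trans (gA y hy),
    fun y hy => (hGg y (Or.inr hy)).trans (gR y hy)⟩

theorem good_step {X Y : Type} [MetricSpace Y] [CompactSpace Y] {f : X → Y}
    {N : Set (Y × ℝ)} (hN : IsOpen N) {ψ : X → ℝ} {x₀ : X} {K₀ : Set Y} (hK₀ : Cont K₀)
    (hstar : ∀ A B : Set Y, Cont A → Cont B → A ∪ B = K₀ → A ≠ K₀ → B ≠ K₀ → f x₀ ∈ A →
      f x₀ ∈ B → False)
    {𝒞 : Set (Set Y)} (hne : 𝒞.Nonempty) (hch : IsChain (· ⊆ ·) 𝒞)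
    (h𝒞 : ∀ A ∈ 𝒞, Cont A ∧ A ≠ K₀ ∧ f x₀ ∈ A ∧ A ⊆ K₀)
    (hT : ∀ B' : Set Y, Cont B' → (⋂₀ 𝒞) ∪ B' = K₀ → B' ≠ K₀ → False)
    {par : Set Y → Set Y} (hpar : ∀ A ∈ 𝒞, Cont (par A) ∧ A ∪ par A = K₀ ∧ par A ≠ K₀)
    {s s' : Y → ℝ} (hs : Sec N (⋂₀ 𝒞) s) (hs' : Sec N (⋂₀ 𝒞) s') (hg : Good N f ψ x₀ 𝒞 par s)
    {w : Y} (hw : w ∈ ⋂₀ 𝒞) (hsw : Seg N w (s w) (s' w)) : Good N f ψ x₀ 𝒞 par s' := by
  have hcl : ∀ A ∈ 𝒞, IsClosed A := fun A hA => (h𝒞 A hA).1.1.isClosed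
  obtain ⟨As, hAs, hgood⟩ := hg
  have hopen : IsOpen ({y : Y | (y, s y) ∈ N} ∩ {y : Y | (y, s' y) ∈ N}) :=
    (hN.preimage (continuous_id.prodMk hs.1)).inter (hN.preimage (continuous_id.prodMk hs'.1))
  obtain ⟨A₁, hA₁, hsub⟩ := chain_subset_open hne hch hcl hopen
    (fun y hy => ⟨hs.2 y hy, hs'.2 y hy⟩)
  refine ⟨A₁, hA₁, fun A hA hAA₁ => ?_⟩
  have hE : IsOpen {y : Y | Seg N y (s y) (s' y)} := seg_open hN continuous_id hs.1 hs'.1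
  obtain ⟨hparc, hparu, hparn⟩ := hpar A hA
  obtain ⟨A', hA', hA'A, hdis, hmeet⟩ := part_b hK₀ hstar hch h𝒞 hT hA hparc hparu hparn hE
    ⟨w, hsw, hw⟩
  obtain ⟨A'', hA'', hA''A', hA''As⟩ : ∃ A'' ∈ 𝒞, A'' ⊆ A' ∧ A'' ⊆ As := by
    rcases hch.total hA' hAs with h | h
    · exact ⟨A', hA', Subset.rfl, h⟩
    · exact ⟨As, hAs, h, Subset.rfl⟩
  obtain ⟨τ, hτ, hτx, hτs⟩ := hgood A'' hA'' hA''As
  obtain ⟨hparc'', hparu'', hparn''⟩ := hpar A'' hA''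
  have hdis'' : Disjoint A'' (par A) := hdis.mono_left hA''A'
  have hA''A : A'' ⊆ A := hA''A'.trans hA'A
  have hR : IsClosed (A ∩ par A'') := (hcl A hA).inter hparc''.1.isClosed
  have hP : IsClosed (A'' ∩ par A'') := (hcl A'' hA'').inter hparc''.1.isClosed
  have hQ : IsClosed (A ∩ par A) := (hcl A hA).inter hparc.1.isClosed
  have hPR : A'' ∩ par A'' ⊆ A ∩ par A'' := inter_subset_inter_left _ hA''A
  have hQR : A ∩ par A ⊆ A ∩ par A'' := by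
    rintro y ⟨hyA, hyB⟩
    refine ⟨hyA, ?_⟩
    have hyK : y ∈ A'' ∪ par A'' := by
      rw [hparu'']
      exact (h𝒞 A hA).2.2.2 hyA
    rcases hyK with h | h
    · exact absurd hyB (disjoint_left.1 hdis'' h)
    · exact h
  have hPQ : Disjoint (A'' ∩ par A'') (A ∩ par A) :=
    hdis''.mono inter_subset_left inter_subset_right
  have hs₁ : Sec N (A ∩ par A'') s := ⟨hs.1, fun y hy => (hsub (hAA₁ hy.1)).1⟩
  have hs₂ : Sec N (A ∩ par A'') s' := ⟨hs'.1, fun y hy => (hsub (hAA₁ hy.1)).2⟩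
  obtain ⟨ρ, hρ, hρP, hρQ⟩ := glue_ring hN hR hP hQ hPR hQR hPQ hs₁ hs₂ (by
    intro H hH hHR hHP hHQ
    obtain ⟨y, hyH, hyE⟩ := hmeet H hH (fun y hy => (h𝒞 A hA).2.2.2 (hHR hy).1)
      (hHP.mono (fun y hy => ⟨hy.1, hA''A' hy.2.1⟩)) (hHQ.mono (fun y hy => ⟨hy.1, hy.2.2⟩))
    exact ⟨y, hyH, hyE⟩)
  obtain ⟨τ', hτ'c, hτ'A, hτ'R⟩ := good_glue (hcl A'' hA'') hR hτ.1 hρ.1 (by
    rintro y ⟨hyA'', hyA, hyB⟩
    rw [hτs y ⟨hyA'', hyB⟩, hρP y ⟨hyA'', hyB⟩])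
  have hx₀ : f x₀ ∈ A'' := (h𝒞 A'' hA'').2.2.1
  refine ⟨τ', ⟨hτ'c, ?_⟩, ?_, ?_⟩
  · intro y hyA
    have hyK : y ∈ A'' ∪ par A'' := by
      rw [hparu'']
      exact (h𝒞 A hA).2.2.2 hyA
    rcases hyK with h | h
    · rw [hτ'A y h]
      exact hτ.2 y h
    · rw [hτ'R y ⟨hyA, h⟩]
      exact hρ.2 y ⟨hyA, h⟩
  · rw [hτ'A _ hx₀]
    exact hτx
  · intro y hy
    rw [hτ'R y (hQR hy)]
    exact hρQ y hy

end CArc
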