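import Pool.Agent.Helper78.CA.Seg

set_option autoImplicit false

/-!
`low_section`: `IsCompact.induction_on` for `K` with the property `p S := ∃ s, Sec N K s ∧ ∀ y ∈ S, s y < b` (if `K` is empty everything is
trivial). Union: the minimum of two sections is a section. Local: for `y ∈ K` take `x`, `f x = y`, `ψ x < b`, and a section `s` over `K` with
`Seg N y (s y) (ψ x)`; put `c = ψ x - s y`; the set `W = {y' | Seg N y' (s y') (s y' + c)}` is open (`seg_open`) and contains `y`; let `u : Y → [0,1]` be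
continuous, `u y = 1`, `u = 0` outside `W`; `s + u c` is a section over `K` with the value `ψ x < b` at `y`.
`low_section_closed`: the compact space `V` (subtype). For `v ∈ V` its component (its image in `Y`) is a continuum `K ⊆ V`, `low_section` gives `s`; the set
`{y | (y, s y) ∈ N ∧ s y < b}` is open and contains `K`; by `connectedComponent_eq_iInter_isClopen` and compactness it contains a clopen set of the subtype `V`
containing `v`. Then `IsCompact.induction_on` for `univ : Set V` with the property `∃ Z clopen, S ⊆ Z ∧ ∃ h : V → ℝ continuous, ∀ v ∈ Z, (v, h v) ∈ N ∧ h v < b`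
(union: `Set.piecewise` over a clopen set), and Tietze extension from the closed set `V` to `Y`.
-/

namespace CArc

open Set Topology

theorem low_section {X Y : Type} [MetricSpace X] [CompactSpace X] [MetricSpace Y]
    [CompactSpace Y] {f : X → Y} {N : Set (Y × ℝ)} (hN : IsOpen N)
    {ψ : X → ℝ} {b : ℝ} (hlow : ∀ y : Y, ∃ x : X, f x = y ∧ ψ x < b) {K : Set Y}
    (hK : IsCompact K) (hEP : EP N f ψ K) :
    ∃ s : Y → ℝ, Sec N K s ∧ ∀ y ∈ K, s y < b := by
  rcases K.eq_empty_or_nonempty with hKe | ⟨y₀, hy₀⟩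
  · subst hKe
    exact ⟨fun _ => 0, ⟨continuous_const, fun y hy => absurd hy (notMem_empty y)⟩,
      fun y hy => absurd hy (notMem_empty y)⟩
  refine hK.induction_on (p := fun S : Set Y => ∃ s : Y → ℝ, Sec N K s ∧ ∀ y ∈ S, s y < b)
    ?_ ?_ ?_ ?_
  · obtain ⟨x, hx, -⟩ := hlow y₀
    obtain ⟨s, hs, -⟩ := hEP x (by rw [hx]; exact hy₀)
    exact ⟨s, hs, fun y hy => absurd hy (notMem_empty y)⟩
  · rintro S T hST ⟨s, hs, hsT⟩
    exact ⟨s, hs, fun y hy => hsT y (hST hy)⟩
  · rintro S T ⟨s, hs, hsS⟩ ⟨t, ht, htT⟩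
    refine ⟨fun y => min (s y) (t y), ⟨hs.1.min ht.1, fun y hy => ?_⟩, fun y hy => ?_⟩
    · show (y, min (s y) (t y)) ∈ N
      rcases min_choice (s y) (t y) with h | h
      · rw [h]; exact hs.2 y hy
      · rw [h]; exact ht.2 y hy
    · show min (s y) (t y) < b
      rcases hy with hy | hy
      · exact (min_le_left _ _).trans_lt (hsS y hy)
      · exact (min_le_right _ _).trans_lt (htT y hy)
  · intro y hy
    obtain ⟨x, hx, hxb⟩ := hlow y
    obtain ⟨s, hs, hseg⟩ := hEP x (by rw [hx]; exact hy)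
    rw [hx] at hseg
    set c : ℝ := ψ x - s y with hc
    have hW : IsOpen {z : Y | Seg N z (s z) (s z + c)} :=
      seg_open hN continuous_id hs.1 (hs.1.add continuous_const)
    have hyW : y ∈ {z : Y | Seg N z (s z) (s z + c)} := by
      show Seg N y (s y) (s y + c)
      have e : s y + c = ψ x := by rw [hc]; ring
      rw [e]
      exact hseg
    obtain ⟨u, hu0, hu1, hu⟩ := exists_continuous_zero_one_of_isClosed hW.isClosed_compl
      (isClosed_singleton (x := y)) (disjoint_left.2 (fun z hz hzy => by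
        rw [mem_singleton_iff] at hzy
        rw [hzy] at hz
        exact hz hyW))
    have hcont : Continuous (fun z => s z + u z * c) :=
      hs.1.add (u.continuous.mul continuous_const)
    refine ⟨{z | s z + u z * c < b}, ?_, fun z => s z + u z * c, ⟨hcont, fun z hz => ?_⟩,
      fun z hz => hz⟩
    · apply mem_nhdsWithin_of_mem_nhds
      apply (isOpen_Iio.preimage hcont).mem_nhds
      show s y + u y * c < b
      have h1 : u y = 1 := hu1 (mem_singleton y)
      rw [h1, hc]
      linarith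
    · show (z, s z + u z * c) ∈ N
      by_cases hzW : z ∈ {z : Y | Seg N z (s z) (s z + c)}
      · apply hzW
        rw [← segment_eq_uIcc, segment_eq_image']
        exact ⟨u z, hu z, by simp⟩
      · have h0 : u z = 0 := hu0 hzW
        rw [h0, zero_mul, add_zero]
        exact hs.2 z hz

theorem low_section_closed {X Y : Type} [MetricSpace X] [CompactSpace X] [MetricSpace Y]
    [CompactSpace Y] {f : X → Y} {N : Set (Y × ℝ)} (hN : IsOpen N)
    {ψ : X → ℝ} {b : ℝ} (hlow : ∀ y : Y, ∃ x : X, f x = y ∧ ψ x < b) {V : Set Y}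
    (hV : IsClosed V) (hEP : ∀ K : Set Y, Cont K → K ⊆ V → EP N f ψ K) :
    ∃ s : Y → ℝ, Sec N V s ∧ ∀ y ∈ V, s y < b := by
  classical
  haveI : CompactSpace V := isCompact_iff_compactSpace.1 hV.isCompact
  have main : ∃ Z : Set V, IsClopen Z ∧ (univ : Set V) ⊆ Z ∧ ∃ h : V → ℝ, Continuous h ∧
      ∀ v ∈ Z, ((v : Y), h v) ∈ N ∧ h v < b := by
    refine isCompact_univ.induction_on (p := fun S : Set V => ∃ Z : Set V, IsClopen Z ∧ S ⊆ Z ∧
      ∃ h : V → ℝ, Continuous h ∧ ∀ v ∈ Z, ((v : Y), h v) ∈ N ∧ h v < b) ?_ ?_ ?_ ?_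
    · exact ⟨∅, isClopen_empty, Subset.rfl, fun _ => 0, continuous_const,
        fun v hv => absurd hv (notMem_empty v)⟩
    · rintro S T hST ⟨Z, hZ, hTZ, h⟩
      exact ⟨Z, hZ, hST.trans hTZ, h⟩
    · rintro S T ⟨Z₁, hZ₁, hS, h₁, hc₁, hh₁⟩ ⟨Z₂, hZ₂, hT, h₂, hc₂, hh₂⟩
      refine ⟨Z₁ ∪ Z₂, hZ₁.union hZ₂, union_subset_union hS hT, Z₁.piecewise h₁ h₂, ?_, ?_⟩
      · refine Continuous.piecewise (fun a ha => ?_) hc₁ hc₂
        rw [hZ₁.frontier_eq] at ha
        exact absurd ha (notMem_empty a)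
      · intro v hv
        by_cases hv1 : v ∈ Z₁
        · rw [piecewise_eq_of_mem _ _ _ hv1]
          exact hh₁ v hv1
        · rw [piecewise_eq_of_notMem _ _ _ hv1]
          exact hh₂ v (hv.resolve_left hv1)
    · intro v _
      have hKc : Cont (Subtype.val '' connectedComponent v : Set Y) :=
        ⟨isClosed_connectedComponent.isCompact.image continuous_subtype_val,
          isConnected_connectedComponent.image _ continuous_subtype_val.continuousOn⟩
      have hKV : (Subtype.val '' connectedComponent v : Set Y) ⊆ V := by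
        rintro _ ⟨z, -, rfl⟩
        exact z.2
      obtain ⟨s, hs, hsb⟩ := low_section hN hlow hKc.1 (hEP _ hKc hKV)
      have hO : IsOpen {z : V | ((z : Y), s z) ∈ N ∧ s z < b} := by
        have h1 : Continuous (fun z : V => s (z : Y)) := hs.1.comp continuous_subtype_val
        exact (hN.preimage (continuous_subtype_val.prodMk h1)).inter (isOpen_Iio.preimage h1)
      have hsub : connectedComponent v ⊆ {z : V | ((z : Y), s z) ∈ N ∧ s z < b} :=
        fun z hz => ⟨hs.2 _ ⟨z, hz, rfl⟩, hsb _ ⟨z, hz, rfl⟩⟩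
      have hcl : ∃ Z : Set V, IsClopen Z ∧ v ∈ Z ∧ Z ⊆ {z : V | ((z : Y), s z) ∈ N ∧ s z < b} := by
        let M := { S : Set V // IsClopen S ∧ v ∈ S }
        haveI : Nonempty M := ⟨⟨univ, isClopen_univ, mem_univ v⟩⟩
        have hMcl : ∀ S : M, IsClosed S.val := fun S => S.property.1.1
        have hdir : Directed (· ⊇ ·) fun S : M => S.val := by
          rintro ⟨S, hS, hxS⟩ ⟨T, hT, hxT⟩
          exact ⟨⟨S ∩ T, hS.inter hT, ⟨hxS, hxT⟩⟩, inter_subset_left, inter_subset_right⟩
        have hnh : ∀ z ∈ ⋂ S : M, S.val, {z : V | ((z : Y), s z) ∈ N ∧ s z < b} ∈ 𝓝 z := by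
          intro z hz
          have hz' : z ∈ connectedComponent v := by
            rw [connectedComponent_eq_iInter_isClopen]
            exact hz
          exact hO.mem_nhds (hsub hz')
        obtain ⟨S, hS⟩ := exists_subset_nhds_of_compactSpace hdir hMcl hnh
        exact ⟨S.val, S.property.1, S.property.2, hS⟩
      obtain ⟨Z, hZ, hvZ, hZO⟩ := hcl
      exact ⟨Z, mem_nhdsWithin_of_mem_nhds (hZ.isOpen.mem_nhds hvZ), Z, hZ, Subset.rfl,
        fun z => s z, hs.1.comp continuous_subtype_val, fun z hz => hZO hz⟩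
  obtain ⟨Z, -, hZ, h, hc, hh⟩ := main
  obtain ⟨g, hg⟩ := ContinuousMap.exists_restrict_eq hV (⟨h, hc⟩ : C(V, ℝ))
  have hgv : ∀ v : V, g v = h v := fun v => congrFun (congrArg DFunLike.coe hg) v
  refine ⟨g, ⟨g.continuous, fun y hy => ?_⟩, fun y hy => ?_⟩
  · have := hgv ⟨y, hy⟩
    simp only at this
    rw [this]
    exact (hh ⟨y, hy⟩ (hZ (mem_univ _))).1
  · have := hgv ⟨y, hy⟩
    simp only at this
    rw [this]
    exact (hh ⟨y, hy⟩ (hZ (mem_univ _))).2

end CArc
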