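import Pool.Agent.Helper18.LK.Main

/-!
# Approximate sections of confluent maps of arc-like continua
-/

set_option autoImplicit false

namespace CArc

open Set Topology Filter

theorem nn_open {X Y : Type} [MetricSpace Y] (f : X → Y) (ψ : X → ℝ) (η : ℝ) :
    IsOpen (NN f ψ η) := by
  have h : NN f ψ η = ⋃ x : X, {q : Y × ℝ | dist (f x) q.1 < η ∧ |ψ x - q.2| < 1} := by
    ext q
    simp [NN]
  rw [h]
  refine isOpen_iUnion fun x => ?_
  have h1 : IsOpen {q : Y × ℝ | dist (f x) q.1 < η} :=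
    isOpen_lt (continuous_const.dist continuous_fst) continuous_const
  have h2 : IsOpen {q : Y × ℝ | |ψ x - q.2| < 1} :=
    isOpen_lt ((continuous_const.sub continuous_snd).abs) continuous_const
  exact h1.inter h2

/-- a real function on the source is, up to a small error, a function on the target -/
theorem near_real {X Y : Type} [MetricSpace X] [CompactSpace X] [MetricSpace Y]
    [CompactSpace Y] [Nonempty X] {f : X → Y} (hf : Continuous f)
    (hsurj : Function.Surjective f)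
    (hEP : ∀ N : Set (Y × ℝ), IsOpen N → ∀ ψ : X → ℝ, Continuous ψ → (∀ x, (f x, ψ x) ∈ N) →
      ∀ K : Set Y, Cont K → K ≠ univ → EP N f ψ K) {ψ : X → ℝ} (hψ : Continuous ψ) {R₀ : ℝ} (hR₀ : 0 < R₀) :
    ∃ k : Y → ℝ, Continuous k ∧ ∀ y, ∃ x, dist (f x) y < R₀ ∧ |ψ x - k y| < 2 := by
  have hcψ : IsCompact (Set.range ψ) := isCompact_range hψ
  obtain ⟨M, hM⟩ := hcψ.bddAbove
  obtain ⟨m, hm⟩ := hcψ.bddBelow
  have hM' : ∀ x, ψ x ≤ M := fun x => hM ⟨x, rfl⟩
  have hm' : ∀ x, m ≤ ψ x := fun x => hm ⟨x, rfl⟩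
  obtain ⟨x₁⟩ := (inferInstance : Nonempty X)
  set B : Set ℝ := {b | ∀ y, ∃ x, f x = y ∧ ψ x ≤ b} with hB
  have hBne : B.Nonempty := ⟨M, fun y => by
    obtain ⟨x, hx⟩ := hsurj y
    exact ⟨x, hx, hM' x⟩⟩
  have hBbd : BddBelow B := ⟨m, fun b hb => by
    obtain ⟨x, -, hx⟩ := hb (f x₁)
    exact (hm' x).trans hx⟩
  set β := sInf B with hβ
  obtain ⟨b₁, hb₁, hb₁'⟩ : ∃ b ∈ B, b < β + 1 / 8 :=
    exists_lt_of_csInf_lt hBne (by rw [← hβ]; linarith)
  have hlow : ∀ y : Y, ∃ x : X, f x = y ∧ ψ x < β + 1 / 8 := by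
    intro y
    obtain ⟨x, hx, hx'⟩ := hb₁ y
    exact ⟨x, hx, lt_of_le_of_lt hx' hb₁'⟩
  obtain ⟨y₀, hy₀⟩ : ∃ y₀, ∀ x, f x = y₀ → β - 1 / 4 < ψ x := by
    by_contra hcon
    push Not at hcon
    have : β - 1 / 4 ∈ B := fun y => by
      obtain ⟨x, hx, hx'⟩ := hcon y
      exact ⟨x, hx, hx'⟩
    have h2 : β ≤ β - 1 / 4 := csInf_le hBbd this
    linarith
  obtain ⟨ρ, hρ, hρ'⟩ : ∃ ρ > 0, ∀ x, dist (f x) y₀ < ρ → β - 1 / 2 < ψ x := by
    have hcl : IsClosed (f '' {x | ψ x ≤ β - 1 / 2}) :=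
      ((isClosed_le hψ continuous_const).isCompact.image hf).isClosed
    have hn : y₀ ∈ (f '' {x | ψ x ≤ β - 1 / 2})ᶜ := by
      rintro ⟨x, hx, hx'⟩
      have h1 := hy₀ x hx'
      have h2 : ψ x ≤ β - 1 / 2 := hx
      linarith
    obtain ⟨ρ, hρ, hsub⟩ := Metric.isOpen_iff.1 hcl.isOpen_compl y₀ hn
    refine ⟨ρ, hρ, fun x hx => ?_⟩
    by_contra hcon
    push Not at hcon
    exact hsub (Metric.mem_ball.2 hx) ⟨x, hcon, rfl⟩
  set R : ℝ := min (ρ / 2) R₀ with hR
  have hR0 : 0 < R := lt_min (by positivity) hR₀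
  have hR1 : 2 * R ≤ ρ := by
    have := min_le_left (ρ / 2) R₀
    rw [← hR] at this
    linarith
  have hR2 : R ≤ R₀ := min_le_right _ _
  set V : Set Y := {y | R / 2 ≤ dist y y₀} with hV
  have hVcl : IsClosed V := isClosed_le continuous_const (by fun_prop)
  obtain ⟨h, ⟨hhc, hhN⟩, hhlt⟩ := low_section_closed (nn_open f ψ R) hlow hVcl (by
    intro K hK hKV
    refine hEP _ (nn_open f ψ R) ψ hψ (fun x => ⟨x, ?_, ?_⟩) K hK ?_
    · simpa using hR0
    · simp
    · rintro rfl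
      have : y₀ ∈ V := hKV (Set.mem_univ _)
      have h2 : R / 2 ≤ dist y₀ y₀ := this
      rw [dist_self] at h2
      linarith)
  have hhV : ∀ v ∈ V, ∃ x, dist (f x) v < R ∧ |ψ x - h v| < 1 := fun v hv => hhN v hv
  have hhlow : ∀ v ∈ V, dist v y₀ ≤ R → β - 3 / 2 < h v := by
    intro v hv hvR
    obtain ⟨x, hx1, hx2⟩ := hhV v hv
    have h1 : dist (f x) y₀ < ρ := by
      have := dist_triangle (f x) v y₀
      linarith
    have h2 := hρ' x h1
    have h3 := abs_lt.1 hx2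
    linarith [h3.2]
  set k : Y → ℝ := fun y => if dist y y₀ ≤ R then max (β - 3 / 2) (min (h y) (β + 1 / 8)) else h y
    with hk
  have hkV : ∀ y ∈ V, k y = h y := by
    intro y hy
    rw [hk]
    simp only
    split_ifs with hc
    · have h1 := hhlow y hy hc
      have h2 := hhlt y hy
      rw [min_eq_left h2.le, max_eq_right h1.le]
    · rfl
  have hkc : Continuous k := by
    rw [hk]
    refine Continuous.if_le (by fun_prop) hhc (by fun_prop) continuous_const ?_
    intro y hy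
    have hyV : y ∈ V := by
      change R / 2 ≤ dist y y₀
      rw [hy]
      linarith
    have h1 := hhlow y hyV hy.le
    have h2 := hhlt y hyV
    rw [min_eq_left h2.le, max_eq_right h1.le]
  refine ⟨k, hkc, fun y => ?_⟩
  by_cases hy : y ∈ V
  · obtain ⟨x, h1, h2⟩ := hhV y hy
    refine ⟨x, h1.trans_le hR2, ?_⟩
    rw [hkV y hy]
    linarith
  · have hy' : dist y y₀ < R / 2 := by
      change ¬ (R / 2 ≤ dist y y₀) at hy
      exact not_le.1 hy
    obtain ⟨x, hx, hx'⟩ := hlow y₀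
    have hx2 := hy₀ x hx
    refine ⟨x, ?_, ?_⟩
    · rw [hx, dist_comm]
      linarith
    · have h1 : k y = max (β - 3 / 2) (min (h y) (β + 1 / 8)) := by
        rw [hk]
        simp only
        rw [if_pos (by linarith)]
      have h2 : β - 3 / 2 ≤ k y := by rw [h1]; exact le_max_left _ _
      have h3 : k y ≤ β + 1 / 8 := by
        rw [h1]
        exact max_le (by linarith) (min_le_right _ _)
      rw [abs_lt]
      constructor <;> linarith

/-- over a proper subcontinuum, through a given point -/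
theorem near_real_thr {X Y : Type} [MetricSpace X] [CompactSpace X] [MetricSpace Y]
    [CompactSpace Y] {f : X → Y}
    (hEP : ∀ N : Set (Y × ℝ), IsOpen N → ∀ ψ : X → ℝ, Continuous ψ → (∀ x, (f x, ψ x) ∈ N) →
      ∀ K : Set Y, Cont K → K ≠ univ → EP N f ψ K) {ψ : X → ℝ} (hψ : Continuous ψ) {R₀ : ℝ} (hR₀ : 0 < R₀)
    {K : Set Y} (hK : Cont K) (hKu : K ≠ univ) {x₀ : X} (hx₀ : f x₀ ∈ K) :
    ∃ k : Y → ℝ, Continuous k ∧ k (f x₀) = ψ x₀ ∧ ∀ y ∈ K, ∃ x, dist (f x) y < R₀ ∧ |ψ x - k y| < 2 := by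
  have hN := nn_open f ψ R₀
  obtain ⟨s, ⟨hs, hsN⟩, hseg⟩ := hEP _ hN ψ hψ (fun x => ⟨x, by simpa using hR₀, by simp⟩) K hK hKu x₀ hx₀
  set y₀ := f x₀ with hy₀
  set a := s y₀ with ha
  set b := ψ x₀ with hb
  obtain ⟨U, V, hU, hV, hyU, hIV, hUV⟩ := generalized_tube_lemma (s := {y₀}) isCompact_singleton (t := Set.uIcc a b) isCompact_uIcc hN (by
    rintro ⟨y, t⟩ ⟨hy, ht⟩
    rw [mem_singleton_iff] at hy
    change y = y₀ at hy
    rw [hy]
    exact hseg t ht)
  obtain ⟨δ, hδ, hδV⟩ := isCompact_uIcc.exists_thickening_subset_open hV hIV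
  have hyU' : y₀ ∈ U := hyU rfl
  have h1 : U ∩ s ⁻¹' Metric.ball a δ ∈ 𝓝 y₀ :=
    inter_mem (hU.mem_nhds hyU') (hs.continuousAt.preimage_mem_nhds (Metric.ball_mem_nhds _ hδ))
  obtain ⟨r, hr, hrs⟩ := Metric.mem_nhds_iff.1 h1
  refine ⟨fun y => s y + max 0 (1 - dist y y₀ / r) * (b - a), by fun_prop, ?_, fun y hy => ?_⟩
  · simp only [dist_self, zero_div, sub_zero]
    rw [max_eq_right zero_le_one]
    ring
  · show ∃ x, dist (f x) y < R₀ ∧ |ψ x - (s y + max 0 (1 - dist y y₀ / r) * (b - a))| < 2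
    by_cases hyr : dist y y₀ < r
    · have h2 := hrs (Metric.mem_ball.2 hyr)
      set χ := max 0 (1 - dist y y₀ / r) with hχ
      have hχ0 : 0 ≤ χ := le_max_left _ _
      have hχ1 : χ ≤ 1 := max_le zero_le_one (by have := div_nonneg (dist_nonneg (x := y) (y := y₀)) hr.le; linarith)
      have h3 : s y + χ * (b - a) ∈ V := by
        apply hδV
        rw [Metric.mem_thickening_iff]
        refine ⟨a + χ * (b - a), ?_, ?_⟩
        · rcases le_total a b with hab | hab
          · rw [Set.uIcc_of_le hab]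
            constructor <;> nlinarith
          · rw [Set.uIcc_of_ge hab]
            constructor <;> nlinarith
        · have h4 : dist (s y) a < δ := h2.2
          rw [Real.dist_eq] at h4 ⊢
          have h5 : s y + χ * (b - a) - (a + χ * (b - a)) = s y - a := by ring
          rw [h5]
          exact h4
      obtain ⟨x, hx1, hx2⟩ := hUV (show (y, s y + χ * (b - a)) ∈ U ×ˢ V from ⟨h2.1, h3⟩)
      exact ⟨x, hx1, lt_trans hx2 (by norm_num)⟩
    · have h2 : max 0 (1 - dist y y₀ / r) = 0 := by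
        refine max_eq_left ?_
        rw [sub_nonpos, le_div_iff₀ hr, one_mul]
        exact not_lt.1 hyr
      rw [h2, zero_mul, add_zero]
      obtain ⟨x, hx1, hx2⟩ := hsN y hy
      exact ⟨x, hx1, lt_trans hx2 (by norm_num)⟩

/-- functions with values in a normed space factor through the arc, up to a small error -/
theorem near_factor {X E : Type} [NormedAddCommGroup E] [NormedSpace ℝ E] {ψ : X → ℝ} {w : X → E} {δ : ℝ} (hδ : 0 < δ)
    (hsc : ∀ x x' : X, |ψ x - ψ x'| ≤ 6 → ‖w x - w x'‖ < δ) :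
    ∃ u : ℝ → E, Continuous u ∧ ∀ x t, |ψ x - t| < 2 → ‖w x - u t‖ < δ := by
  obtain ⟨g, hg⟩ := exists_continuous_forall_mem_convex_of_local_const (X := ℝ) (E := E)
    (t := fun t => {e : E | ∀ x, |ψ x - t| < 2 → ‖w x - e‖ < δ}) (fun t => by
      intro e₁ h₁ e₂ h₂ a b ha hb hab x hx
      have i1 := h₁ x hx
      have i2 := h₂ x hx
      have h3 : w x - (a • e₁ + b • e₂) = a • (w x - e₁) + b • (w x - e₂) := by
        have : w x = a • w x + b • w x := by rw [← add_smul, hab, one_smul]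
        rw [smul_sub, smul_sub]
        nth_rewrite 1 [this]
        abel
      rw [h3]
      have h4 := norm_add_le (a • (w x - e₁)) (b • (w x - e₂))
      rw [norm_smul, norm_smul, Real.norm_of_nonneg ha, Real.norm_of_nonneg hb] at h4
      rcases eq_or_lt_of_le ha with h5 | h5
      · have h6 : b = 1 := by linarith
        rw [← h5, h6] at h4
        rw [← h5, h6]
        linarith
      · have h6 : a * ‖w x - e₁‖ < a * δ := mul_lt_mul_of_pos_left i1 h5
        have h7 : b * ‖w x - e₂‖ ≤ b * δ := mul_le_mul_of_nonneg_left i2.le hb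
        have h8 : a * δ + b * δ = δ := by rw [← add_mul, hab, one_mul]
        linarith) (fun t => by
      by_cases h : ∃ x₁, |ψ x₁ - t| < 3
      · obtain ⟨x₁, hx₁⟩ := h
        refine ⟨w x₁, ?_⟩
        filter_upwards [Metric.ball_mem_nhds t (show (0 : ℝ) < 1 / 2 by norm_num)] with t' ht' x hx
        rw [Metric.mem_ball, Real.dist_eq] at ht'
        apply hsc
        rw [abs_lt] at hx hx₁ ht'
        rw [abs_le]
        constructor <;> linarith [hx.1, hx.2, hx₁.1, hx₁.2, ht'.1, ht'.2]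
      · refine ⟨0, ?_⟩
        filter_upwards [Metric.ball_mem_nhds t (show (0 : ℝ) < 1 / 2 by norm_num)] with t' ht' x hx
        exfalso
        apply h
        refine ⟨x, ?_⟩
        rw [Metric.mem_ball, Real.dist_eq] at ht'
        rw [abs_lt] at hx ht' ⊢
        constructor <;> linarith [hx.1, hx.2, ht'.1, ht'.2])
  exact ⟨g, g.continuous, fun x t h => hg t x h⟩

/-- approximate sections of confluent maps of arc-like continua -/
theorem near_sections {X Y : Type} [MetricSpace X] [CompactSpace X] [Nonempty X] [MetricSpace Y]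
    [CompactSpace Y] (hX : ArcLike X) {f : X → Y} (hf : Continuous f)
    (hsurj : Function.Surjective f) (hconf : Confl f) {E : Type} [NormedAddCommGroup E] [NormedSpace ℝ E] {w : X → E}
    (hw : Continuous w) {ε : ℝ} (hε : 0 < ε) :
    (∃ s : Y → E, Continuous s ∧ ∀ y, ∃ x, dist (f x) y < ε ∧ ‖w x - s y‖ < ε) ∧
    (∀ K : Set Y, IsCompact K → IsConnected K → K ≠ univ → ∀ x₀, f x₀ ∈ K →
      ∃ s : Y → E, Continuous s ∧ s (f x₀) = w x₀ ∧ ∀ y ∈ K, ∃ x, dist (f x) y < ε ∧ ‖w x - s y‖ < ε) := by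
  have hEP := fun (N : Set (Y × ℝ)) (hN : IsOpen N) (ψ : X → ℝ) (hψ : Continuous ψ) (hψN : ∀ x, (f x, ψ x) ∈ N) (K : Set Y)
    (hK : Cont K) (hKu : K ≠ univ) => ep_all' hX hf hsurj hconf N hN ψ hψ hψN K hK hKu
  obtain ⟨ψ₀, hψ₀, hsc₀⟩ := exists_scale hX hw (δ := ε / 2) (by positivity)
  set ψ : X → ℝ := fun x => 2 * ψ₀ x with hψd
  have hψ : Continuous ψ := continuous_const.mul hψ₀
  have hsc : ∀ x x' : X, |ψ x - ψ x'| ≤ 6 → ‖w x - w x'‖ < ε / 2 := by
    intro x x' h
    rw [← dist_eq_norm]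
    apply hsc₀
    rw [hψd] at h
    simp only at h
    rw [← mul_sub, abs_mul, abs_of_pos (show (0 : ℝ) < 2 by norm_num)] at h
    linarith
  obtain ⟨u, hu, hwu⟩ := near_factor (show 0 < ε / 2 by positivity) hsc
  refine ⟨?_, ?_⟩
  · obtain ⟨k, hk, h⟩ := near_real hf hsurj hEP hψ hε
    refine ⟨fun y => u (k y), hu.comp hk, fun y => ?_⟩
    obtain ⟨x, h1, h2⟩ := h y
    exact ⟨x, h1, (hwu x _ h2).trans (by linarith)⟩
  · intro K hK1 hK2 hKu x₀ hx₀
    obtain ⟨k, hk, hk0, h⟩ := near_real_thr hEP hψ hε ⟨hK1, hK2⟩ hKu hx₀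
    refine ⟨fun y => u (k y) + (w x₀ - u (ψ x₀)), (hu.comp hk).add continuous_const, ?_, fun y hy => ?_⟩
    · simp only [hk0]
      abel
    · obtain ⟨x, h1, h2⟩ := h y hy
      refine ⟨x, h1, ?_⟩
      have h3 := hwu x _ h2
      have h4 := hwu x₀ (ψ x₀) (by simp)
      have h5 : w x - (u (k y) + (w x₀ - u (ψ x₀))) = (w x - u (k y)) - (w x₀ - u (ψ x₀)) := by abel
      rw [h5]
      refine (norm_sub_le _ _).trans_lt ?_
      linarith

end CArc
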