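import Pool.Agent.Helper78.CA.Seg
import Pool.Agent.Helper78.CA.Sep

set_option autoImplicit false

/-!
Gluing two sections over a ring. Let `E = {y | Seg N y (s₁ y) (s₂ y)}` (open by `seg_open`),
`Z = R \ E`. By the hypothesis no continuum in `Z` meets both `P ∩ Z` and `Q ∩ Z`, so `sep` gives
closed disjoint `Z₁ ∪ Z₂ = Z` with `P ∩ Z ⊆ Z₁`, `Q ∩ Z ⊆ Z₂`. The closed sets `Z₁ ∪ P` and `Z₂ ∪ Q`
are disjoint; take `u : Y → [0,1]` continuous, `u = 0` on the first and `u = 1` on the second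
(Urysohn), `s = (1 - u) s₁ + u s₂`. On `E` the value lies between `s₁ y` and `s₂ y`; on `Z₁` it is
`s₁`, on `Z₂` it is `s₂`.
-/

namespace CArc

open Set Topology

private lemma ring_aux1 {a b u : ℝ} (h0 : 0 ≤ u) (h1 : u ≤ 1) :
    (1 - u) * a + u * b ∈ Set.uIcc a b := by
  rw [Set.mem_uIcc]
  rcases le_total a b with h | h
  · left
    constructor <;> nlinarith
  · right
    constructor <;> nlinarith

theorem glue_ring {Y : Type} [MetricSpace Y] [CompactSpace Y] {N : Set (Y × ℝ)} (hN : IsOpen N)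
    {R P Q : Set Y} (hR : IsClosed R) (hP : IsClosed P) (hQ : IsClosed Q) (hPR : P ⊆ R)
    (hQR : Q ⊆ R) (hPQ : Disjoint P Q) {s₁ s₂ : Y → ℝ} (h₁ : Sec N R s₁) (h₂ : Sec N R s₂)
    (h : ∀ H : Set Y, Cont H → H ⊆ R → (H ∩ P).Nonempty → (H ∩ Q).Nonempty →
      ∃ y ∈ H, Seg N y (s₁ y) (s₂ y)) :
    ∃ s : Y → ℝ, Sec N R s ∧ (∀ y ∈ P, s y = s₁ y) ∧ (∀ y ∈ Q, s y = s₂ y) := by
  set E : Set Y := {y | Seg N y (s₁ y) (s₂ y)} with hE
  have hEo : IsOpen E := seg_open hN continuous_id h₁.1 h₂.1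
  have hZ : IsClosed (R \ E) := hR.sdiff hEo
  obtain ⟨Z₁, Z₂, hZ₁, hZ₂, hun, hdis, hPZ, hQZ⟩ := sep (Z := R \ E) (P := P ∩ (R \ E))
    (Q := Q ∩ (R \ E)) hZ (hP.inter hZ) (hQ.inter hZ) inter_subset_right inter_subset_right (by
      intro H hH hHZ hHP hHQ
      obtain ⟨y, hy, hyE⟩ := h H hH (hHZ.trans diff_subset)
        (hHP.mono (inter_subset_inter_right H inter_subset_left))
        (hHQ.mono (inter_subset_inter_right H inter_subset_left))
      exact (hHZ hy).2 hyE)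
  have hZ₁s : Z₁ ⊆ R \ E := by rw [← hun]; exact subset_union_left
  have hZ₂s : Z₂ ⊆ R \ E := by rw [← hun]; exact subset_union_right
  have hd : Disjoint (Z₁ ∪ P) (Z₂ ∪ Q) := by
    rw [Set.disjoint_left]
    rintro y (hy | hy) (hy' | hy')
    · exact Set.disjoint_left.mp hdis hy hy'
    · exact Set.disjoint_left.mp hdis hy (hQZ ⟨hy', hZ₁s hy⟩)
    · exact Set.disjoint_left.mp hdis (hPZ ⟨hy, hZ₂s hy'⟩) hy'
    · exact Set.disjoint_left.mp hPQ hy hy'
  obtain ⟨u, hu0, hu1, hu⟩ := exists_continuous_zero_one_of_isClosed (hZ₁.union hP)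
    (hZ₂.union hQ) hd
  have hs0 : ∀ y ∈ Z₁ ∪ P, (1 - u y) * s₁ y + u y * s₂ y = s₁ y := by
    intro y hy
    have : u y = 0 := hu0 hy
    rw [this]; ring
  have hs1 : ∀ y ∈ Z₂ ∪ Q, (1 - u y) * s₁ y + u y * s₂ y = s₂ y := by
    intro y hy
    have : u y = 1 := hu1 hy
    rw [this]; ring
  refine ⟨fun y => (1 - u y) * s₁ y + u y * s₂ y, ⟨?_, ?_⟩, fun y hy => hs0 y (Or.inr hy),
    fun y hy => hs1 y (Or.inr hy)⟩
  · exact ((continuous_const.sub u.continuous).mul h₁.1).add (u.continuous.mul h₂.1)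
  · intro y hy
    by_cases hyE : y ∈ E
    · exact hyE _ (ring_aux1 (hu y).1 (hu y).2)
    · have hyZ : y ∈ Z₁ ∪ Z₂ := by rw [hun]; exact ⟨hy, hyE⟩
      rcases hyZ with hy1 | hy2
      · have := hs0 y (Or.inl hy1)
        simp only
        rw [this]
        exact h₁.2 y hy
      · have := hs1 y (Or.inl hy2)
        simp only
        rw [this]
        exact h₂.2 y hy

end CArc
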