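import Pool.Agent.Helper78.CA.Defs

set_option autoImplicit false

/-!
Elementary lemmas about vertical segments.

`seg_trans`: the interval between `a` and `c` is contained in the union of the intervals
between `a, b` and `b, c`.
`seg_open`: write the points of the segment as `s₁ z + θ (s₂ z - s₁ z)`, `θ ∈ [0,1]`; the map
`(z, θ) ↦ (p z, s₁ z + θ (s₂ z - s₁ z))` is continuous, so the set of `z` such that all `θ` in the
compact interval are sent into the open set `N` is open (tube lemma).
-/

namespace CArc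

open Set Topology

variable {Y : Type}

theorem seg_symm {N : Set (Y × ℝ)} {y : Y} {a b : ℝ} (h : Seg N y a b) : Seg N y b a := by
  unfold Seg at *
  rwa [uIcc_comm]

theorem seg_trans {N : Set (Y × ℝ)} {y : Y} {a b c : ℝ} (h : Seg N y a b) (h' : Seg N y b c) :
    Seg N y a c := by
  intro t ht
  rcases uIcc_subset_uIcc_union_uIcc ht with h1 | h1
  · exact h t h1
  · exact h' t h1

theorem seg_left {N : Set (Y × ℝ)} {y : Y} {a b : ℝ} (h : Seg N y a b) : (y, a) ∈ N :=
  h a left_mem_uIcc

theorem seg_right {N : Set (Y × ℝ)} {y : Y} {a b : ℝ} (h : Seg N y a b) : (y, b) ∈ N :=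
  h b right_mem_uIcc

theorem seg_refl {N : Set (Y × ℝ)} {y : Y} {a : ℝ} (h : (y, a) ∈ N) : Seg N y a a := by
  intro t ht
  rw [uIcc_self, mem_singleton_iff] at ht
  rwa [ht]

theorem seg_mono_right {N : Set (Y × ℝ)} {y : Y} {a b c : ℝ} (h : Seg N y a b)
    (hc : c ∈ Set.uIcc a b) : Seg N y a c :=
  fun t ht => h t (uIcc_subset_uIcc left_mem_uIcc hc ht)

/-- The set of points where a segment between two continuous functions lies in `N` is open. -/
theorem seg_open {Z : Type} [TopologicalSpace Y] [TopologicalSpace Z] {N : Set (Y × ℝ)}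
    (hN : IsOpen N) {p : Z → Y} {s₁ s₂ : Z → ℝ} (hp : Continuous p) (h₁ : Continuous s₁)
    (h₂ : Continuous s₂) : IsOpen {z : Z | Seg N (p z) (s₁ z) (s₂ z)} := by
  let F : Z × Icc (0 : ℝ) 1 → Y × ℝ := fun q => (p q.1, s₁ q.1 + (q.2 : ℝ) * (s₂ q.1 - s₁ q.1))
  have hF : Continuous F := by
    refine (hp.comp continuous_fst).prodMk ?_
    exact (h₁.comp continuous_fst).add ((continuous_subtype_val.comp continuous_snd).mul
      ((h₂.comp continuous_fst).sub (h₁.comp continuous_fst)))
  have hcl : IsClosed (Prod.fst '' (F ⁻¹' N)ᶜ : Set Z) :=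
    isClosedMap_fst_of_compactSpace _ (hN.preimage hF).isClosed_compl
  have heq : {z : Z | Seg N (p z) (s₁ z) (s₂ z)} = (Prod.fst '' (F ⁻¹' N)ᶜ : Set Z)ᶜ := by
    ext z
    constructor
    · rintro hz ⟨⟨z', θ⟩, hq, rfl⟩
      apply hq
      apply hz
      rw [← segment_eq_uIcc, segment_eq_image']
      exact ⟨θ, θ.2, by simp⟩
    · intro hz t ht
      rw [← segment_eq_uIcc, segment_eq_image'] at ht
      obtain ⟨θ, hθ, rfl⟩ := ht
      by_contra hcon
      apply hz
      refine ⟨(z, ⟨θ, hθ⟩), ?_, rfl⟩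
      intro hmem
      apply hcon
      simpa [F] using hmem
  rw [heq]
  exact hcl.isOpen_compl

end CArc
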